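import Mathlib

/-!
# Project JS (MP_03a1f6_co, Janzer's conjecture on blowups of spiders): definitions
-/

set_option autoImplicit false

namespace Pool.Agent.Helper55.JS

open Finset

/-! ## The blowup of a spider -/

/-- Vertices of the `t`-blowup of the spider with `s` legs of lengths `j c`: the roots `inl c`, and
for every copy `a : Fin t` the centre `inr (a, none)` and the inner vertices
`inr (a, some ⟨c, i⟩)`, at distance `i + 1` from the centre on leg `c`. -/
abbrev BV (s t : ℕ) (j : Fin s → ℕ) : Type := Fin s ⊕ (Fin t × Option (Σ c : Fin s, Fin (j c - 1)))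

/-- the vertex at distance `i` from the centre on leg `c` of copy `a` (the root of leg `c` if
`i` is at least the length of the leg) -/
def pt {s t : ℕ} {j : Fin s → ℕ} (a : Fin t) (c : Fin s) (i : ℕ) : BV s t j :=
  if i = 0 then Sum.inr (a, none)
  else if h : i - 1 < j c - 1 then Sum.inr (a, some ⟨c, ⟨i - 1, h⟩⟩) else Sum.inl c

/-- the `t`-blowup of the spider with leg lengths `j` -/
def blow (s t : ℕ) (j : Fin s → ℕ) : SimpleGraph (BV s t j) :=
  SimpleGraph.fromRel fun x y => ∃ (a : Fin t) (c : Fin s) (i : ℕ), i < j c ∧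
    x = pt a c i ∧ y = pt a c (i + 1)

/-! ## Walks -/

section walks

variable {V : Type} [Fintype V] [DecidableEq V]

open Classical in
/-- the adjacency matrix -/
noncomputable def adj (G : SimpleGraph V) : Matrix V V ℝ :=
  Matrix.of fun x y => if G.Adj x y then 1 else 0

/-- the degree, as a real number -/
noncomputable def dg (G : SimpleGraph V) (x : V) : ℝ := ∑ y, adj G x y

/-- the number of walks of length `m` from `x` to `y` -/
noncomputable def W (G : SimpleGraph V) (m : ℕ) (x y : V) : ℝ := (adj G ^ m) x y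

end walks

variable {V : Type}

/-- walks as functions -/
def IsWalk (G : SimpleGraph V) {m : ℕ} (p : Fin (m + 1) → V) : Prop :=
  ∀ i : Fin m, G.Adj (p i.castSucc) (p i.succ)

open Classical in
/-- the walks of length `m` from `x` to `y` -/
noncomputable def wk [Fintype V] (G : SimpleGraph V) (m : ℕ) (x y : V) :
    Finset (Fin (m + 1) → V) :=
  univ.filter fun p => IsWalk G p ∧ p 0 = x ∧ p (Fin.last m) = y

open Classical in
/-- the number of non-injective walks of length `k` from `x` to `y` -/
noncomputable def bw [Fintype V] (G : SimpleGraph V) (k : ℕ) (x y : V) : ℝ :=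
  (((wk G k x y).filter fun p => ¬ Function.Injective p).card : ℝ)

/-- the walks of length `k` from `x` to `y` are spread out, and most of them are paths -/
structure Spread [Fintype V] [DecidableEq V] (G : SimpleGraph V) (k : ℕ) (δ : ℝ) (x y : V) :
    Prop where
  pos : 0 < W G k x y
  le : ∀ (r : ℕ) (u : V), 0 < r → r < k → W G r x u * W G (k - r) u y ≤ δ * W G k x y
  inj : bw G k x y ≤ W G k x y / 2

/-! ## Copies of a spider -/

/-- systems of legs -/
abbrev Legs (V : Type) {s : ℕ} (j : Fin s → ℕ) : Type := ∀ c : Fin s, Fin (j c + 1) → V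

/-- the legs `p` with centre `u` form a copy of the spider (all vertices distinct) -/
structure IsCopy (G : SimpleGraph V) {s : ℕ} (j : Fin s → ℕ) (u : V) (p : Legs V j) : Prop where
  start : ∀ c, p c 0 = u
  walk : ∀ c, IsWalk G (p c)
  inj : ∀ (c c' : Fin s) (i : Fin (j c + 1)) (i' : Fin (j c' + 1)), i ≠ 0 → p c i = p c' i' →
    c = c' ∧ (i : ℕ) = i'

section copies

variable [Fintype V] [DecidableEq V]

open Classical in
/-- the copies of the spider -/
noncomputable def cps (G : SimpleGraph V) {s : ℕ} (j : Fin s → ℕ) : Finset (V × Legs V j) :=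
  univ.filter fun f => IsCopy G j f.1 f.2

open Classical in
/-- the number of copies with roots `X` -/
noncomputable def IX (G : SimpleGraph V) {s : ℕ} (j : Fin s → ℕ) (X : Fin s → V) : ℝ :=
  (((cps G j).filter fun f => ∀ c, f.2 c (Fin.last (j c)) = X c).card : ℝ)

open Classical in
/-- the number of copies with roots `X` and `z` at position `i` of leg `c` -/
noncomputable def IXz (G : SimpleGraph V) {s : ℕ} (j : Fin s → ℕ) (X : Fin s → V) (c : Fin s)
    (i : Fin (j c)) (z : V) : ℝ :=
  (((cps G j).filter fun f => (∀ c, f.2 c (Fin.last (j c)) = X c) ∧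
    f.2 c i.castSucc = z).card : ℝ)

end copies

/-! ## Adding a leg to objects with a base vertex and a forbidden set -/

section legs

variable [Fintype V] [DecidableEq V] {O Ξ : Type} [Fintype O] [Fintype Ξ] [DecidableEq Ξ]

open Classical in
/-- pairs of an object `o ∈ Os` of type `x` and a path `p` of length `i` from the base `U o` to
`v` which avoids the set `S o` -/
noncomputable def Pc (G : SimpleGraph V) (Os : Finset O) (U : O → V) (ξ : O → Ξ)
    (S : O → Finset V) (i : ℕ) (x : Ξ) (v : V) : Finset (O × (Fin (i + 1) → V)) :=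
  univ.filter fun q => q.1 ∈ Os ∧ ξ q.1 = x ∧ IsWalk G q.2 ∧ q.2 0 = U q.1 ∧
    q.2 (Fin.last i) = v ∧ Function.Injective q.2 ∧ ∀ r, q.2 r ∉ S q.1

/-- their number -/
noncomputable def Iv (G : SimpleGraph V) (Os : Finset O) (U : O → V) (ξ : O → Ξ)
    (S : O → Finset V) (i : ℕ) (x : Ξ) (v : V) : ℝ := ((Pc G Os U ξ S i x v).card : ℝ)

/-- the sum of the squares -/
noncomputable def Qv (G : SimpleGraph V) (Os : Finset O) (U : O → V) (ξ : O → Ξ)
    (S : O → Finset V) (i : ℕ) : ℝ := ∑ x, ∑ v, Iv G Os U ξ S i x v ^ 2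

open Classical in
/-- pairs of an object `o ∈ Os` of type `x` with `y ∈ S o` and a path `p` of length `i` from the
base `U o` which avoids the set `S o`, and whose end is adjacent to `y` -/
noncomputable def βv (G : SimpleGraph V) (Os : Finset O) (U : O → V) (ξ : O → Ξ)
    (S : O → Finset V) (i : ℕ) (x : Ξ) (y : V) : ℝ :=
  ((univ.filter fun q : O × (Fin (i + 1) → V) => q.1 ∈ Os ∧ ξ q.1 = x ∧ IsWalk G q.2 ∧
    q.2 0 = U q.1 ∧ G.Adj (q.2 (Fin.last i)) y ∧ Function.Injective q.2 ∧ (∀ r, q.2 r ∉ S q.1) ∧
    y ∈ S q.1).card : ℝ)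

end legs

/-! ## The legs other than leg `c` -/

/-- centre and legs other than leg `c` -/
abbrev Oth (V : Type) {s : ℕ} (j : Fin s → ℕ) (c : Fin s) : Type :=
  V × (∀ b : {b : Fin s // b ≠ c}, Fin (j b + 1) → V)

section oth

variable [Fintype V] [DecidableEq V] {s : ℕ} {j : Fin s → ℕ} {c : Fin s}

/-- the legs other than `c` form a copy of a spider -/
structure IsOth (G : SimpleGraph V) (j : Fin s → ℕ) (c : Fin s) (o : Oth V j c) : Prop where
  start : ∀ b, o.2 b 0 = o.1
  walk : ∀ b, IsWalk G (o.2 b)
  inj : ∀ (b b' : {b : Fin s // b ≠ c}) (i : Fin (j b + 1)) (i' : Fin (j b' + 1)), i ≠ 0 →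
    o.2 b i = o.2 b' i' → b = b' ∧ (i : ℕ) = i'

open Classical in
/-- the set of these objects -/
noncomputable def oth (G : SimpleGraph V) (j : Fin s → ℕ) (c : Fin s) : Finset (Oth V j c) :=
  univ.filter fun o => IsOth G j c o

/-- the roots of these legs -/
def oX (o : Oth V j c) : {b : Fin s // b ≠ c} → V := fun b => o.2 b (Fin.last (j b))

/-- the vertices of these legs without the centre -/
def oS (o : Oth V j c) : Finset V :=
  univ.biUnion fun b : {b : Fin s // b ≠ c} => univ.image fun i : Fin (j b) => o.2 b i.succ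

/-- sum of squares of the numbers of copies of the spider in which leg `c` is replaced by a leg
of length `i` -/
noncomputable def Qc (G : SimpleGraph V) (j : Fin s → ℕ) (c : Fin s) (i : ℕ) : ℝ :=
  Qv G (oth G j c) (fun o => o.1) oX oS i

end oth

end Pool.Agent.Helper55.JS
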