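import Mathlib

/-!
# Regularisation (piece G2 of the rational exponent conjecture)

From an unbounded ratio `ex(n, H) / n ^ (1 + y)` we obtain `H`-free bipartite almost regular
graphs of large normalised degree.
-/

set_option autoImplicit false
set_option linter.unusedSectionVars false
set_option linter.unusedVariables false

namespace Pool.Agent.Helper55.JS.RG

open Finset

namespace Reg

section counting

open scoped Classical

variable {V : Type} [Fintype V]

/-- number of adjacent ordered pairs in `A × B` -/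
noncomputable def cnt (G : SimpleGraph V) (A B : Finset V) : ℕ :=
  ∑ a ∈ A, ∑ b ∈ B, if G.Adj a b then 1 else 0

lemma cnt_comm (G : SimpleGraph V) (A B : Finset V) : cnt G A B = cnt G B A := by
  unfold cnt
  rw [Finset.sum_comm]
  simp [SimpleGraph.adj_comm]

lemma cnt_singleton_left (G : SimpleGraph V) (v : V) (B : Finset V) :
    cnt G {v} B = ∑ b ∈ B, if G.Adj v b then 1 else 0 := by
  simp [cnt]

lemma cnt_eq_sum (G : SimpleGraph V) (A B : Finset V) :
    cnt G A B = ∑ a ∈ A, cnt G {a} B := by
  simp [cnt]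

lemma cnt_mono (G : SimpleGraph V) {A B A' B' : Finset V} (hA : A ⊆ A') (hB : B ⊆ B') :
    cnt G A B ≤ cnt G A' B' := by
  unfold cnt
  calc ∑ a ∈ A, ∑ b ∈ B, (if G.Adj a b then 1 else 0)
      ≤ ∑ a ∈ A, ∑ b ∈ B', (if G.Adj a b then 1 else 0) := by
        apply Finset.sum_le_sum
        intro a _
        exact Finset.sum_le_sum_of_subset hB
    _ ≤ _ := Finset.sum_le_sum_of_subset hA

lemma cnt_degree (G : SimpleGraph V) (v : V) : cnt G {v} univ = G.degree v := by
  rw [cnt_singleton_left, Finset.sum_boole, ← SimpleGraph.card_neighborFinset_eq_degree]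
  simp only [Nat.cast_id]
  congr 1
  ext w
  simp

lemma cnt_univ (G : SimpleGraph V) : cnt G univ univ = 2 * #G.edgeFinset := by
  rw [cnt_eq_sum]
  simp only [cnt_degree]
  exact SimpleGraph.sum_degrees_eq_twice_card_edges G

lemma cnt_subtype (G : SimpleGraph V) (T : Finset V) :
    cnt G T T = cnt (G.induce (T : Set V)) univ univ := by
  unfold cnt
  rw [← Finset.sum_coe_sort]
  apply Finset.sum_congr
  · ext; simp
  · intro a _
    rw [← Finset.sum_coe_sort]
    apply Finset.sum_congr
    · ext; simp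
    · intro b _
      simp

lemma cnt_le_ex {U : Type} (H : SimpleGraph U) (G : SimpleGraph V) (hG : H.Free G)
    (T : Finset V) : cnt G T T ≤ 2 * SimpleGraph.extremalNumber T.card H := by
  rw [cnt_subtype, cnt_univ]
  have h1 : H.Free (G.induce (T : Set V)) := by
    intro h
    exact hG (h.trans ⟨SimpleGraph.Copy.induce G (T : Set V)⟩)
  have h3 : Fintype.card (T : Set V) = T.card := by simp
  rw [← h3]
  refine Nat.mul_le_mul_left 2 ?_
  have h5 := SimpleGraph.card_edgeFinset_le_extremalNumber h1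
  have h6 : ∀ (i1 : Fintype (G.induce (T : Set V)).edgeSet) (i2 : Fintype (G.induce (T : Set V)).edgeSet),
      (@SimpleGraph.edgeFinset _ (G.induce (T : Set V)) i1).card =
        (@SimpleGraph.edgeFinset _ (G.induce (T : Set V)) i2).card := by
    intro i1 i2
    rw [Subsingleton.elim i1 i2]
  have h7 : ∀ (f1 f2 : Fintype (T : Set V)), @Fintype.card (T : Set V) f1 = @Fintype.card (T : Set V) f2 := by
    intro f1 f2
    rw [Subsingleton.elim f1 f2]
  rw [h6 _ _] at h5
  rw [h7 _ _] at h5
  exact h5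

/-- the `σ` best vertices have at least their share -/
lemma exists_best (w : V → ℕ) (σ : ℕ) (hσ : σ ≤ Fintype.card V) :
    ∃ T : Finset V, T.card = σ ∧ σ * ∑ v, w v ≤ Fintype.card V * ∑ v ∈ T, w v := by
  have hne : (powersetCard σ (univ : Finset V)).Nonempty := by
    rw [powersetCard_nonempty]
    simpa using hσ
  obtain ⟨T, hT, hmax⟩ := Finset.exists_max_image _ (fun T => ∑ v ∈ T, w v) hne
  rw [mem_powersetCard] at hT
  refine ⟨T, hT.2, ?_⟩
  have hswap : ∀ u ∈ Tᶜ, ∀ v ∈ T, w u ≤ w v := by
    intro u hu v hv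
    rw [mem_compl] at hu
    have hvu : u ∉ T.erase v := fun h => hu (mem_of_mem_erase h)
    have h1 := hmax (insert u (T.erase v)) (by
      rw [mem_powersetCard]
      refine ⟨subset_univ _, ?_⟩
      rw [card_insert_of_notMem hvu, card_erase_of_mem hv, hT.2]
      have : 0 < T.card := card_pos.2 ⟨v, hv⟩
      omega)
    rw [sum_insert hvu] at h1
    have h2 := Finset.add_sum_erase T w hv
    omega
  have h3 : T.card * ∑ u ∈ Tᶜ, w u ≤ (Tᶜ).card * ∑ v ∈ T, w v := by
    calc T.card * ∑ u ∈ Tᶜ, w u = ∑ u ∈ Tᶜ, ∑ v ∈ T, w u := by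
          simp [Finset.mul_sum]
      _ ≤ ∑ u ∈ Tᶜ, ∑ v ∈ T, w v := sum_le_sum fun u hu => sum_le_sum fun v hv => hswap u hu v hv
      _ = (Tᶜ).card * ∑ v ∈ T, w v := by simp
  have h4 : ∑ v, w v = ∑ v ∈ T, w v + ∑ v ∈ Tᶜ, w v := (Finset.sum_add_sum_compl T w).symm
  have h5 : (Tᶜ).card + T.card = Fintype.card V := by
    rw [card_compl]
    have := card_le_univ T
    omega
  rw [h4, ← h5, ← hT.2]
  nlinarith

/-- a 2-colouring with at least half of the edges bichromatic -/
lemma exists_half (G : SimpleGraph V) : ∃ (c : V → Bool) (G' : SimpleGraph V), G' ≤ G ∧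
    (∀ a b, G'.Adj a b → c a ≠ c b) ∧ cnt G univ univ ≤ 2 * cnt G' univ univ := by
  by_contra hcon
  push Not at hcon
  let F : (V → Bool) → SimpleGraph V := fun c =>
    { Adj := fun a b => G.Adj a b ∧ c a ≠ c b
      symm := ⟨fun a b h => ⟨h.1.symm, h.2.symm⟩⟩
      loopless := ⟨fun a h => h.2 rfl⟩ }
  have h1 : ∀ c, 2 * cnt (F c) univ univ < cnt G univ univ := fun c =>
    hcon c (F c) (fun a b h => h.1) (fun a b h => h.2)
  have h2 : ∀ a b : V, a ≠ b → 2 * #{c : V → Bool | c a ≠ c b} = Fintype.card (V → Bool) := by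
    intro a b hab
    have h3 : #{c : V → Bool | c a ≠ c b} = #{c : V → Bool | c a = c b} := by
      apply Finset.card_bij (fun c _ => Function.update c a (!c a))
      · intro c hc
        simp only [mem_filter, mem_univ, true_and] at hc ⊢
        rw [Function.update_self, Function.update_of_ne hab.symm]
        revert hc
        cases c a <;> cases c b <;> simp
      · intro c _ c' _ h
        funext x
        by_cases hx : x = a
        · subst hx
          have := congrFun h x
          simpa using this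
        · have := congrFun h x
          rwa [Function.update_of_ne hx, Function.update_of_ne hx] at this
      · intro c hc
        simp only [mem_filter, mem_univ, true_and] at hc
        refine ⟨Function.update c a (!c a), ?_, ?_⟩
        · simp only [mem_filter, mem_univ, true_and]
          rw [Function.update_self, Function.update_of_ne hab.symm, hc]
          cases c b <;> simp
        · simp
    have h4 : #{c : V → Bool | c a = c b} + #{c : V → Bool | c a ≠ c b} =
        Fintype.card (V → Bool) := by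
      rw [← Finset.card_univ]
      convert Finset.card_filter_add_card_filter_not (s := (univ : Finset (V → Bool)))
        (fun c => c a = c b)
    omega
  have h5 : 2 * ∑ c : V → Bool, cnt (F c) univ univ =
      Fintype.card (V → Bool) * cnt G univ univ := by
    have h6 : ∑ c : V → Bool, cnt (F c) univ univ =
        ∑ a, ∑ b, ∑ c : V → Bool, (if G.Adj a b ∧ c a ≠ c b then 1 else 0) := by
      unfold cnt
      rw [Finset.sum_comm]
      apply Finset.sum_congr rfl
      intro a _
      rw [Finset.sum_comm]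
      apply Finset.sum_congr rfl
      intro b _
      apply Finset.sum_congr rfl
      intro c _
      have h8 : (F c).Adj a b ↔ G.Adj a b ∧ c a ≠ c b := Iff.rfl
      simp only [h8]
    rw [h6, Finset.mul_sum]
    unfold cnt
    rw [Finset.mul_sum]
    apply Finset.sum_congr rfl
    intro a _
    rw [Finset.mul_sum, Finset.mul_sum]
    apply Finset.sum_congr rfl
    intro b _
    by_cases hab : G.Adj a b
    · simp only [hab, true_and, if_true, mul_one]
      rw [Finset.sum_boole]
      simpa using h2 a b hab.ne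
    · simp [hab]
  have h7 : ∑ c : V → Bool, 2 * cnt (F c) univ univ < ∑ c : V → Bool, cnt G univ univ := by
    apply Finset.sum_lt_sum_of_nonempty univ_nonempty
    intro c _
    exact h1 c
  rw [← Finset.mul_sum, h5] at h7
  simp at h7

/-- a nonempty vertex set with large minimum degree -/
lemma exists_minDeg (G : SimpleGraph V) (hG : 0 < cnt G univ univ) : ∃ W : Finset V, W.Nonempty ∧
    ∀ v ∈ W, cnt G univ univ ≤ 2 * Fintype.card V * cnt G {v} W := by
  set m : ℤ := (cnt G univ univ : ℤ) with hm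
  set n : ℤ := (Fintype.card V : ℤ) with hn
  have hV : Nonempty V := by
    by_contra h
    rw [not_nonempty_iff] at h
    simp [cnt] at hG
  have hne : (univ.filter fun W : Finset V => W.Nonempty).Nonempty :=
    ⟨univ, by simp⟩
  obtain ⟨W, hW, hmax⟩ := Finset.exists_max_image _
    (fun W : Finset V => n * (cnt G W W : ℤ) - m * (W.card : ℤ)) hne
  simp only [mem_filter, mem_univ, true_and] at hW hmax
  have hpos : 0 ≤ n * (cnt G W W : ℤ) - m * (W.card : ℤ) := by
    have := hmax univ univ_nonempty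
    rw [Finset.card_univ, ← hm, ← hn] at this
    linarith [mul_comm n m]
  have hm0 : 0 < m := by rw [hm]; exact_mod_cast hG
  refine ⟨W, hW, fun v hv => ?_⟩
  have hrem : cnt G W W = cnt G (W.erase v) (W.erase v) + 2 * cnt G {v} W := by
    have h1 : cnt G W W = cnt G {v} W + cnt G (W.erase v) W := by
      rw [cnt_eq_sum G W W, cnt_eq_sum G (W.erase v) W]
      exact (Finset.add_sum_erase W (fun a => cnt G {a} W) hv).symm
    have h2 : cnt G (W.erase v) W = cnt G (W.erase v) (W.erase v) + cnt G (W.erase v) {v} := by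
      unfold cnt
      rw [← Finset.sum_add_distrib]
      apply Finset.sum_congr rfl
      intro a _
      rw [Finset.sum_singleton, Finset.sum_erase_add W _ hv]
    have h3 : cnt G (W.erase v) {v} = cnt G {v} W := by
      rw [cnt_comm, cnt_singleton_left, cnt_singleton_left]
      have := Finset.add_sum_erase W (fun b => if G.Adj v b then 1 else 0) hv
      simp only [SimpleGraph.irrefl, if_false, zero_add] at this
      exact this
    omega
  have hne' : (W.erase v).Nonempty := by
    by_contra h
    rw [not_nonempty_iff_eq_empty] at h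
    have h1 : W = {v} := by
      rw [Finset.erase_eq_empty_iff] at h
      rcases h with h | h
      · exact absurd h hW.ne_empty
      · exact h
    have h2 : cnt G {v} {v} = 0 := by simp [cnt_singleton_left]
    rw [h1, h2] at hpos
    simp at hpos
    linarith
  have h1 := hmax (W.erase v) hne'
  have h2 : ((W.erase v).card : ℤ) = W.card - 1 := by
    rw [card_erase_of_mem hv]
    have : 0 < W.card := card_pos.2 ⟨v, hv⟩
    omega
  rw [h2, hrem] at h1
  push_cast at h1
  have h3 : m ≤ n * (2 * (cnt G {v} W : ℤ)) := by nlinarith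
  have h4 : (cnt G univ univ : ℤ) ≤ 2 * (Fintype.card V : ℤ) * (cnt G {v} W : ℤ) := by
    rw [← hm, ← hn]
    linarith
  exact_mod_cast h4

/-- degrees inside a vertex set -/
lemma degree_induce (G : SimpleGraph V) (W : Finset V) (v : {x // x ∈ W})
    [DecidableRel (G.comap (Subtype.val : {x // x ∈ W} → V)).Adj] :
    (G.comap (Subtype.val : {x // x ∈ W} → V)).degree v = cnt G {v.1} W := by
  rw [cnt_singleton_left, ← SimpleGraph.card_neighborFinset_eq_degree, ← Finset.sum_coe_sort,
    Finset.sum_boole]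
  simp only [Nat.cast_id]
  congr 1
  ext w
  simp

/-- the key estimate: vertices of large degree touch few edges -/
lemma big_vertices {U : Type} (H : SimpleGraph U) (G : SimpleGraph V) (hG : H.Free G)
    (y A : ℝ) (hy : 0 < y) (hA : 0 < A) (L : ℕ) (hL3 : 3 ≤ L) (hL : (2 / (L : ℝ)) ^ y ≤ 1 / 16)
    (hmin : ∀ m < Fintype.card V, (SimpleGraph.extremalNumber m H : ℝ) ≤ A * (m : ℝ) ^ (1 + y))
    (S : Finset V) (hS : ∀ v ∈ S, L * cnt G univ univ < Fintype.card V * cnt G {v} univ) :
    4 * (cnt G S univ : ℝ) ≤ A * (Fintype.card V : ℝ) ^ (1 + y) := by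
  set n := Fintype.card V with hn
  rcases S.eq_empty_or_nonempty with h0 | hne
  · subst h0
    simp only [cnt, Finset.sum_empty, Nat.cast_zero, mul_zero]
    positivity
  have hVne : Nonempty V := ⟨hne.choose⟩
  have hn0 : 0 < n := Fintype.card_pos
  have hsum : L * cnt G univ univ * S.card < n * cnt G univ univ := by
    calc L * cnt G univ univ * S.card = ∑ v ∈ S, L * cnt G univ univ := by
          simp [mul_comm]
      _ < ∑ v ∈ S, n * cnt G {v} univ := Finset.sum_lt_sum_of_nonempty hne hS
      _ = n * cnt G S univ := by rw [← Finset.mul_sum, ← cnt_eq_sum]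
      _ ≤ n * cnt G univ univ := Nat.mul_le_mul_left _ (cnt_mono G (subset_univ _) subset_rfl)
  have hLS : L * S.card < n := by
    by_contra h
    push Not at h
    have : n * cnt G univ univ ≤ L * cnt G univ univ * S.card := by
      calc n * cnt G univ univ ≤ (L * S.card) * cnt G univ univ := Nat.mul_le_mul_right _ h
        _ = _ := by ring
    omega
  have hσ : S.card ≤ Fintype.card V := card_le_univ S
  obtain ⟨T, hT, hbest⟩ := exists_best (fun u => cnt G S {u}) S.card hσ
  have h1 : ∑ v, cnt G S {v} = cnt G S univ := by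
    rw [cnt_comm, cnt_eq_sum]
    exact Finset.sum_congr rfl fun v _ => cnt_comm G _ _
  have h2 : ∑ v ∈ T, cnt G S {v} = cnt G S T := by
    rw [cnt_comm G S T, cnt_eq_sum]
    exact Finset.sum_congr rfl fun v _ => cnt_comm G _ _
  rw [h1, h2] at hbest
  have h3 : cnt G S T ≤ cnt G (S ∪ T) (S ∪ T) :=
    cnt_mono G subset_union_left subset_union_right
  have h4 := cnt_le_ex H G hG (S ∪ T)
  have h5 : (S ∪ T).card ≤ 2 * S.card := by
    have := card_union_le S T
    omega
  have h6 : (S ∪ T).card < n := by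
    have : 0 < S.card := card_pos.2 hne
    nlinarith
  have h7 := hmin _ h6
  have h8 : ((S ∪ T).card : ℝ) ^ (1 + y) ≤ (2 * S.card : ℝ) ^ (1 + y) := by
    apply Real.rpow_le_rpow (by positivity) _ (by linarith)
    exact_mod_cast h5
  have hSpos : (0 : ℝ) < S.card := by exact_mod_cast card_pos.2 hne
  have hnpos : (0 : ℝ) < n := by exact_mod_cast hn0
  have hLpos : (0 : ℝ) < L := by
    have : 0 < L := by omega
    exact_mod_cast this
  have h9 : (2 * (S.card : ℝ)) ^ (1 + y) = 2 * S.card * (2 * (S.card : ℝ)) ^ y := by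
    rw [Real.rpow_add (by positivity), Real.rpow_one]
  have h10 : (2 * (S.card : ℝ)) ^ y ≤ (n : ℝ) ^ y / 16 := by
    have h11 : 2 * (S.card : ℝ) ≤ 2 / L * n := by
      rw [div_mul_eq_mul_div, le_div_iff₀ hLpos]
      have : ((L * S.card : ℕ) : ℝ) ≤ n := by exact_mod_cast hLS.le
      push_cast at this
      nlinarith
    calc (2 * (S.card : ℝ)) ^ y ≤ (2 / L * n) ^ y :=
          Real.rpow_le_rpow (by positivity) h11 hy.le
      _ = (2 / (L : ℝ)) ^ y * (n : ℝ) ^ y := Real.mul_rpow (by positivity) (by positivity)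
      _ ≤ 1 / 16 * (n : ℝ) ^ y := mul_le_mul_of_nonneg_right hL (by positivity)
      _ = _ := by ring
  have hbest' : (S.card : ℝ) * cnt G S univ ≤ n * cnt G S T := by exact_mod_cast hbest
  have h3' : (cnt G S T : ℝ) ≤ 2 * SimpleGraph.extremalNumber (S ∪ T).card H := by
    exact_mod_cast h3.trans h4
  have h12 : (cnt G S T : ℝ) ≤ 2 * (A * (2 * S.card * ((n : ℝ) ^ y / 16))) := by
    calc (cnt G S T : ℝ) ≤ 2 * SimpleGraph.extremalNumber (S ∪ T).card H := h3'
      _ ≤ 2 * (A * ((S ∪ T).card : ℝ) ^ (1 + y)) := by linarith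
      _ ≤ 2 * (A * (2 * S.card : ℝ) ^ (1 + y)) := by
          have := mul_le_mul_of_nonneg_left h8 hA.le
          linarith
      _ = 2 * (A * (2 * S.card * (2 * (S.card : ℝ)) ^ y)) := by rw [h9]
      _ ≤ _ := by
          have : 2 * (S.card : ℝ) * (2 * (S.card : ℝ)) ^ y ≤ 2 * S.card * ((n : ℝ) ^ y / 16) :=
            mul_le_mul_of_nonneg_left h10 (by positivity)
          have := mul_le_mul_of_nonneg_left this hA.le
          linarith
  have h13 : (S.card : ℝ) * cnt G S univ ≤ S.card * (A * (n * (n : ℝ) ^ y) / 4) := by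
    calc (S.card : ℝ) * cnt G S univ ≤ n * cnt G S T := hbest'
      _ ≤ n * (2 * (A * (2 * S.card * ((n : ℝ) ^ y / 16)))) :=
          mul_le_mul_of_nonneg_left h12 hnpos.le
      _ = _ := by ring
  have h14 := le_of_mul_le_mul_left h13 hSpos
  rw [Real.rpow_add hnpos, Real.rpow_one]
  linarith

end counting

end Reg

open Reg

open scoped Classical in
/-- Regularisation. -/
theorem regularize (y : ℝ) (hy : 0 < y) (hy1 : y ≤ 1) : ∃ K : ℕ, 1 ≤ K ∧
    ∀ (U : Type) (H : SimpleGraph U),
      (¬ ∃ C : ℝ, ∀ n : ℕ, (SimpleGraph.extremalNumber n H : ℝ) ≤ C * (n : ℝ) ^ (1 + y)) →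
      ∀ B : ℝ, ∃ (W : Type) (_ : Fintype W) (_ : DecidableEq W) (G : SimpleGraph W)
        (_ : DecidableRel G.Adj) (c : W → Bool) (d : ℕ),
        Nonempty W ∧ H.Free G ∧ (∀ a b, G.Adj a b → c a ≠ c b) ∧
        (∀ w, d ≤ G.degree w ∧ G.degree w ≤ K * d) ∧
        B * (Fintype.card W : ℝ) ^ y ≤ d := by
  obtain ⟨L, hL3, hL⟩ : ∃ L : ℕ, 3 ≤ L ∧ (2 / (L : ℝ)) ^ y ≤ 1 / 16 := by
    obtain ⟨L, hL⟩ := exists_nat_ge (2 * (16 : ℝ) ^ (1 / y))
    refine ⟨max L 3, le_max_right _ _, ?_⟩
    have h1 : 2 * (16 : ℝ) ^ (1 / y) ≤ ((max L 3 : ℕ) : ℝ) := hL.trans (by exact_mod_cast le_max_left _ _)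
    have h2 : (0 : ℝ) < (16 : ℝ) ^ (1 / y) := by positivity
    have h3 : (0 : ℝ) < ((max L 3 : ℕ) : ℝ) := by linarith
    have h4 : 2 / ((max L 3 : ℕ) : ℝ) ≤ 1 / (16 : ℝ) ^ (1 / y) := by
      rw [div_le_div_iff₀ h3 h2]
      linarith
    calc (2 / ((max L 3 : ℕ) : ℝ)) ^ y ≤ (1 / (16 : ℝ) ^ (1 / y)) ^ y :=
          Real.rpow_le_rpow (by positivity) h4 hy.le
      _ = 1 / 16 := by
          rw [Real.div_rpow (by norm_num) h2.le, Real.one_rpow, ← Real.rpow_mul (by norm_num),
            one_div_mul_cancel hy.ne', Real.rpow_one]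
  refine ⟨6 * L, by omega, ?_⟩
  intro U H hunb B
  set A : ℝ := 3 * |B| + 1 with hAdef
  have hA : 0 < A := by positivity
  have hex : ∃ n : ℕ, A * (n : ℝ) ^ (1 + y) < (SimpleGraph.extremalNumber n H : ℝ) := by
    by_contra h
    push Not at h
    exact hunb ⟨A, h⟩
  obtain ⟨n, hn, hmin⟩ : ∃ n : ℕ, A * (n : ℝ) ^ (1 + y) < (SimpleGraph.extremalNumber n H : ℝ) ∧
      ∀ m < n, (SimpleGraph.extremalNumber m H : ℝ) ≤ A * (m : ℝ) ^ (1 + y) := by
    refine ⟨Nat.find hex, Nat.find_spec hex, fun m hm => ?_⟩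
    have := Nat.find_min hex hm
    exact not_lt.1 this
  have hAn : 0 ≤ A * (n : ℝ) ^ (1 + y) := by positivity
  obtain ⟨G0, hfree, hm0⟩ : ∃ G : SimpleGraph (Fin n), H.Free G ∧
      2 * (A * (n : ℝ) ^ (1 + y)) < (cnt G univ univ : ℝ) := by
    have h : ∃ G : SimpleGraph (Fin n), ∃ _ : DecidableRel G.Adj, H.Free G ∧
        A * (n : ℝ) ^ (1 + y) < #G.edgeFinset := by
      rw [← SimpleGraph.lt_extremalNumber_iff_of_nonneg H hAn]
      simpa using hn
    obtain ⟨G, _, hfree, hcard⟩ := h
    refine ⟨G, hfree, ?_⟩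
    have h1 : (cnt G univ univ : ℝ) = 2 * (#G.edgeFinset : ℝ) := by
      rw [cnt_univ]
      push_cast
      have h6 : ∀ (i1 i2 : Fintype G.edgeSet), (((@SimpleGraph.edgeFinset _ G i1).card : ℕ) : ℝ) =
          (((@SimpleGraph.edgeFinset _ G i2).card : ℕ) : ℝ) := by
        intro i1 i2
        rw [Subsingleton.elim i1 i2]
      exact congrArg (fun x : ℝ => 2 * x) (h6 _ _)
    rw [h1]
    linarith
  have hn0 : 0 < n := by
    rcases Nat.eq_zero_or_pos n with h | h
    · subst h
      simp [cnt] at hm0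
      have : (0 : ℝ) ^ (1 + y) = 0 := Real.zero_rpow (by linarith)
      rw [this] at hm0
      simp at hm0
    · exact h
  have hnpos : (0 : ℝ) < n := by exact_mod_cast hn0
  set m0 := cnt G0 univ univ with hm0def
  set S : Finset (Fin n) := univ.filter fun v => L * m0 < n * cnt G0 {v} univ with hSdef
  have hDS : 4 * (cnt G0 S univ : ℝ) ≤ A * (n : ℝ) ^ (1 + y) := by
    have := big_vertices H G0 hfree y A hy hA L hL3 hL (by simpa using hmin) S (by
      intro v hv
      rw [hSdef, mem_filter] at hv
      simpa using hv.2)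
    simpa using this
  -- delete the vertices of `S`
  obtain ⟨G1, hG1adj⟩ : ∃ G1 : SimpleGraph (Fin n),
      ∀ a b, G1.Adj a b ↔ G0.Adj a b ∧ a ∉ S ∧ b ∉ S :=
    ⟨{ Adj := fun a b => G0.Adj a b ∧ a ∉ S ∧ b ∉ S
       symm := ⟨fun a b h => ⟨h.1.symm, h.2.2, h.2.1⟩⟩
       loopless := ⟨fun a h => G0.loopless.irrefl a h.1⟩ }, fun a b => Iff.rfl⟩
  have hG1 : m0 ≤ cnt G1 univ univ + 2 * cnt G0 S univ := by
    have h1 : ∀ a b : Fin n, (if G0.Adj a b then 1 else 0) ≤
        (if G1.Adj a b then 1 else 0) + ((if a ∈ S then (if G0.Adj a b then 1 else 0) else 0) +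
          (if b ∈ S then (if G0.Adj b a then 1 else 0) else 0)) := by
      intro a b
      simp only [hG1adj, G0.adj_comm b a]
      by_cases h3 : G0.Adj a b <;> by_cases h4 : a ∈ S <;> by_cases h5 : b ∈ S <;>
        simp [h3, h4, h5]
    have h2 : ∑ a, ∑ b, (if a ∈ S then (if G0.Adj a b then 1 else 0) else 0) = cnt G0 S univ := by
      unfold cnt
      rw [← Finset.sum_filter_add_sum_filter_not univ (fun a => a ∈ S)]
      have e1 : (∑ a ∈ univ.filter (fun a => ¬ a ∈ S), ∑ b,
          (if a ∈ S then (if G0.Adj a b then 1 else 0) else 0)) = 0 := by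
        apply Finset.sum_eq_zero
        intro a ha
        rw [mem_filter] at ha
        simp [ha.2]
      rw [e1, add_zero, Finset.filter_univ_mem]
      apply Finset.sum_congr rfl
      intro a ha
      simp [ha]
    have h3 : ∑ a, ∑ b, (if b ∈ S then (if G0.Adj b a then 1 else 0) else 0) =
        cnt G0 S univ := by
      rw [Finset.sum_comm]
      exact h2
    calc m0 = ∑ a, ∑ b, (if G0.Adj a b then 1 else 0) := rfl
      _ ≤ ∑ a, ∑ b, ((if G1.Adj a b then 1 else 0) +
          ((if a ∈ S then (if G0.Adj a b then 1 else 0) else 0) +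
          (if b ∈ S then (if G0.Adj b a then 1 else 0) else 0))) :=
          sum_le_sum fun a _ => sum_le_sum fun b _ => h1 a b
      _ = cnt G1 univ univ + (cnt G0 S univ + cnt G0 S univ) := by
          simp only [Finset.sum_add_distrib]
          rw [h2, h3]
          rfl
      _ = _ := by ring
  obtain ⟨c, G2, hG21, hcol, hhalf⟩ := exists_half G1
  have hG2 : (3 : ℝ) * m0 ≤ 8 * cnt G2 univ univ := by
    have h1 : (m0 : ℝ) ≤ cnt G1 univ univ + 2 * cnt G0 S univ := by exact_mod_cast hG1
    have h2 : (cnt G1 univ univ : ℝ) ≤ 2 * cnt G2 univ univ := by exact_mod_cast hhalf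
    linarith
  have hm0pos : (0 : ℝ) < m0 := by linarith
  have hG2pos : 0 < cnt G2 univ univ := by
    have : (0 : ℝ) < cnt G2 univ univ := by linarith
    exact_mod_cast this
  obtain ⟨W, hWne, hW⟩ := exists_minDeg G2 hG2pos
  have hWcard : W.card ≤ n := by simpa using card_le_univ W
  set d : ℕ := ⌈3 * (m0 : ℝ) / (16 * n)⌉₊ with hd
  have hdge : 3 * (m0 : ℝ) / (16 * n) ≤ d := Nat.le_ceil _
  have hG20 : G2 ≤ G0 := fun a b h => ((hG1adj a b).1 (hG21 h)).1
  refine ⟨{x // x ∈ W}, inferInstance, inferInstance,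
    G2.comap (Subtype.val : {x // x ∈ W} → Fin n), inferInstance, fun x => c x.1, d,
    ⟨⟨hWne.choose, hWne.choose_spec⟩⟩, ?_, ?_, ?_, ?_⟩
  · intro h
    apply hfree
    refine h.trans ⟨⟨⟨Subtype.val, fun {a b} hab => hG20 hab⟩, Subtype.val_injective⟩⟩
  · intro a b hab
    exact hcol _ _ hab
  · intro v
    rw [degree_induce]
    constructor
    · rw [hd, Nat.ceil_le]
      have h1 : (cnt G2 univ univ : ℝ) ≤ 2 * n * cnt G2 {v.1} W := by
        have := hW v.1 v.2
        rw [Fintype.card_fin] at this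
        exact_mod_cast this
      rw [div_le_iff₀ (by positivity)]
      nlinarith
    · have hv0 : 0 < cnt G2 {v.1} W := by
        have := hW v.1 v.2
        by_contra h
        have h' : cnt G2 {v.1} W = 0 := by omega
        rw [h'] at this
        omega
      have hvS : v.1 ∉ S := by
        intro hvS
        have : cnt G2 {v.1} W = 0 := by
          rw [cnt_singleton_left]
          apply Finset.sum_eq_zero
          intro b _
          have : ¬ G2.Adj v.1 b := fun h => ((hG1adj _ _).1 (hG21 h)).2.1 hvS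
          simp [this]
        omega
      have h1 : n * cnt G0 {v.1} univ ≤ L * m0 := by
        rw [hSdef, mem_filter] at hvS
        push Not at hvS
        exact hvS (mem_univ _)
      have h2 : cnt G2 {v.1} W ≤ cnt G0 {v.1} univ := by
        unfold cnt
        apply Finset.sum_le_sum
        intro a _
        calc ∑ b ∈ W, (if G2.Adj a b then 1 else 0) ≤ ∑ b ∈ W, (if G0.Adj a b then 1 else 0) := by
              apply Finset.sum_le_sum
              intro b _
              by_cases h : G2.Adj a b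
              · simp [h, hG20 h]
              · simp [h]
          _ ≤ _ := Finset.sum_le_sum_of_subset (subset_univ _)
      have h3 : (n : ℝ) * cnt G2 {v.1} W ≤ L * m0 := by
        have : n * cnt G2 {v.1} W ≤ L * m0 := (Nat.mul_le_mul_left _ h2).trans h1
        exact_mod_cast this
      have h4 : 3 * (m0 : ℝ) ≤ 16 * n * d := by
        rw [div_le_iff₀ (by positivity)] at hdge
        linarith
      have h5 : (cnt G2 {v.1} W : ℝ) ≤ 6 * L * d := by
        have hLpos : (0 : ℝ) < L := by
          have : 0 < L := by omega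
          exact_mod_cast this
        have h6 : (n : ℝ) * cnt G2 {v.1} W ≤ n * (6 * L * d) := by
          have h7 : 3 * (L * (m0 : ℝ)) ≤ L * (16 * n * d) := by nlinarith
          have h8 : (0 : ℝ) ≤ L * n * d := by positivity
          nlinarith
        exact le_of_mul_le_mul_left h6 hnpos
      exact_mod_cast h5
  · have h1 : (Fintype.card {x // x ∈ W} : ℝ) ^ y ≤ (n : ℝ) ^ y := by
      apply Real.rpow_le_rpow (by positivity) _ hy.le
      simpa using hWcard
    have h2 : B * (Fintype.card {x // x ∈ W} : ℝ) ^ y ≤ |B| * (n : ℝ) ^ y := by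
      calc B * (Fintype.card {x // x ∈ W} : ℝ) ^ y ≤ |B| * (Fintype.card {x // x ∈ W} : ℝ) ^ y :=
            mul_le_mul_of_nonneg_right (le_abs_self B) (by positivity)
        _ ≤ _ := mul_le_mul_of_nonneg_left h1 (abs_nonneg B)
    have h3 : |B| * (n : ℝ) ^ y ≤ 3 * (m0 : ℝ) / (16 * n) := by
      rw [le_div_iff₀ (by positivity)]
      have h4 : 2 * (A * (n * (n : ℝ) ^ y)) < m0 := by
        have : (n : ℝ) ^ (1 + y) = n * (n : ℝ) ^ y := by
          rw [Real.rpow_add hnpos, Real.rpow_one]
        rw [← this]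
        exact hm0
      have h5 : (0 : ℝ) < n * (n : ℝ) ^ y := by positivity
      have h6 : |B| * (n * (n : ℝ) ^ y) * 3 ≤ A * (n * (n : ℝ) ^ y) := by
        rw [hAdef]
        nlinarith [abs_nonneg B]
      nlinarith
    linarith

end Pool.Agent.Helper55.JS.RG
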