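import Mathlib
import Pool.Agent.Helper55.JS.Defs

/-!
# Project JS: counting walks
-/

set_option autoImplicit false

namespace Pool.Agent.Helper55.JS

open Finset

variable {V : Type} [Fintype V] [DecidableEq V] {G : SimpleGraph V}

omit [Fintype V] [DecidableEq V] in
lemma adj_apply (x y : V) [Decidable (G.Adj x y)] : adj G x y = if G.Adj x y then 1 else 0 := by
  unfold adj
  rw [Matrix.of_apply]
  congr

omit [Fintype V] [DecidableEq V] in
lemma adj_of_adj {x y : V} (h : G.Adj x y) : adj G x y = 1 := by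
  classical
  rw [adj_apply, if_pos h]

omit [Fintype V] [DecidableEq V] in
lemma adj_of_not {x y : V} (h : ¬ G.Adj x y) : adj G x y = 0 := by
  classical
  rw [adj_apply, if_neg h]

omit [Fintype V] [DecidableEq V] in
lemma adj_symm (x y : V) : adj G x y = adj G y x := by
  classical
  rw [adj_apply, adj_apply]
  simp only [G.adj_comm]

omit [Fintype V] [DecidableEq V] in
lemma adj_nonneg (x y : V) : 0 ≤ adj G x y := by
  classical
  rw [adj_apply]
  split_ifs <;> norm_num

omit [Fintype V] [DecidableEq V] in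
lemma adj_transpose : (adj G).transpose = adj G := by
  ext x y
  exact adj_symm y x

theorem W_zero (x y : V) : W G 0 x y = if x = y then 1 else 0 := by
  unfold W
  rw [pow_zero, Matrix.one_apply]

theorem W_one (x y : V) : W G 1 x y = adj G x y := by
  unfold W
  rw [pow_one]

theorem W_one_self (x : V) : W G 1 x x = 0 := by
  rw [W_one]
  exact adj_of_not (G.loopless.irrefl x)

theorem W_add (a b : ℕ) (x y : V) : W G (a + b) x y = ∑ z, W G a x z * W G b z y := by
  unfold W
  rw [pow_add, Matrix.mul_apply]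

theorem W_succ (m : ℕ) (x y : V) : W G (m + 1) x y = ∑ z, W G m x z * adj G z y := by
  rw [W_add]
  simp only [W_one]

theorem W_succ' (m : ℕ) (x y : V) : W G (m + 1) x y = ∑ z, adj G x z * W G m z y := by
  rw [add_comm, W_add]
  simp only [W_one]

theorem W_nonneg (m : ℕ) (x y : V) : 0 ≤ W G m x y := by
  induction m generalizing y with
  | zero => rw [W_zero]; split_ifs <;> norm_num
  | succ m ih =>
    rw [W_succ]
    exact sum_nonneg fun z _ => mul_nonneg (ih z) (adj_nonneg _ _)

theorem W_symm (m : ℕ) (x y : V) : W G m x y = W G m y x := by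
  unfold W
  have h : (adj G ^ m).transpose = adj G ^ m := by
    rw [Matrix.transpose_pow, adj_transpose]
  conv_lhs => rw [← h]
  rfl

theorem W_self_eq (a : ℕ) (x : V) : W G (2 * a) x x = ∑ z, W G a x z ^ 2 := by
  rw [two_mul, W_add]
  refine sum_congr rfl fun z _ => ?_
  rw [W_symm a z x, sq]

/-- Cauchy-Schwarz -/
theorem W_cs (a b : ℕ) (x y : V) :
    W G (a + b) x y ^ 2 ≤ W G (2 * a) x x * W G (2 * b) y y := by
  rw [W_add, W_self_eq, W_self_eq]
  have h := sum_mul_sq_le_sq_mul_sq (univ : Finset V) (fun z => W G a x z) (fun z => W G b y z)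
  have h2 : ∑ z, W G a x z * W G b z y = ∑ z, W G a x z * W G b y z :=
    sum_congr rfl fun z _ => by rw [W_symm b z y]
  rw [h2]
  exact h

theorem W_two_self (x : V) : W G 2 x x = dg G x := by
  rw [show (2 : ℕ) = 2 * 1 from rfl, W_self_eq]
  unfold dg
  refine sum_congr rfl fun z _ => ?_
  classical
  rw [W_one, adj_apply]
  split_ifs <;> norm_num

theorem W_sum_le {L : ℝ} (hL : ∀ x, dg G x ≤ L) (m : ℕ) (x : V) : ∑ y, W G m x y ≤ L ^ m := by
  induction m with
  | zero =>
    simp only [W_zero, pow_zero]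
    rw [sum_ite_eq]
    simp
  | succ m ih =>
    have h0 : 0 ≤ L := by
      refine le_trans ?_ (hL x)
      exact sum_nonneg fun y _ => adj_nonneg _ _
    simp only [W_succ]
    rw [sum_comm]
    calc ∑ z, ∑ y, W G m x z * adj G z y = ∑ z, W G m x z * dg G z := by
          refine sum_congr rfl fun z _ => ?_
          rw [← mul_sum]; rfl
      _ ≤ ∑ z, W G m x z * L := sum_le_sum fun z _ =>
          mul_le_mul_of_nonneg_left (hL z) (W_nonneg _ _ _)
      _ = (∑ z, W G m x z) * L := (sum_mul _ _ _).symm
      _ ≤ L ^ m * L := mul_le_mul_of_nonneg_right ih h0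
      _ = L ^ (m + 1) := (pow_succ _ _).symm

theorem W_sum_ge {d : ℝ} (hd0 : 0 ≤ d) (hd : ∀ x, d ≤ dg G x) (m : ℕ) (x : V) :
    d ^ m ≤ ∑ y, W G m x y := by
  induction m with
  | zero =>
    simp only [W_zero, pow_zero]
    rw [sum_ite_eq]
    simp
  | succ m ih =>
    simp only [W_succ]
    rw [sum_comm]
    calc d ^ (m + 1) = d ^ m * d := pow_succ _ _
      _ ≤ (∑ z, W G m x z) * d := mul_le_mul_of_nonneg_right ih hd0
      _ = ∑ z, W G m x z * d := sum_mul _ _ _
      _ ≤ ∑ z, W G m x z * dg G z := sum_le_sum fun z _ =>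
          mul_le_mul_of_nonneg_left (hd z) (W_nonneg _ _ _)
      _ = ∑ z, ∑ y, W G m x z * adj G z y := by
          refine sum_congr rfl fun z _ => ?_
          rw [← mul_sum]; rfl

/-! ## Walks as functions -/

omit [Fintype V] [DecidableEq V] in
theorem isWalk_zero (p : Fin (0 + 1) → V) : IsWalk G p := fun i => i.elim0

omit [Fintype V] [DecidableEq V] in
theorem IsWalk.adj' {m : ℕ} {p : Fin (m + 1) → V} (hp : IsWalk G p) (i : ℕ) (h : i < m) :
    G.Adj (p ⟨i, by omega⟩) (p ⟨i + 1, by omega⟩) := hp ⟨i, h⟩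

omit [Fintype V] [DecidableEq V] in
/-- the window of length `l` at offset `o` is a walk -/
theorem IsWalk.win {m : ℕ} {p : Fin (m + 1) → V} (hp : IsWalk G p) (o l : ℕ) (h : o + l ≤ m) :
    IsWalk G (fun i : Fin (l + 1) => p ⟨o + i, by omega⟩) := fun i => by
  have h1 := hp.adj' (o + i) (by omega)
  exact h1

omit [Fintype V] [DecidableEq V] in
theorem IsWalk.snoc {m : ℕ} {p : Fin (m + 1) → V} (hp : IsWalk G p) {y : V}
    (h : G.Adj (p (Fin.last m)) y) : IsWalk G (Fin.snoc p y : Fin (m + 1 + 1) → V) := by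
  intro i
  refine Fin.lastCases ?_ (fun i => ?_) i
  · rw [Fin.snoc_castSucc, Fin.succ_last, Fin.snoc_last]
    exact h
  · rw [Fin.snoc_castSucc, Fin.succ_castSucc, Fin.snoc_castSucc]
    exact hp i

omit [DecidableEq V] in
theorem mem_wk {m : ℕ} {x y : V} {p : Fin (m + 1) → V} :
    p ∈ wk G m x y ↔ IsWalk G p ∧ p 0 = x ∧ p (Fin.last m) = y := by
  unfold wk
  simp

theorem card_wk (m : ℕ) (x y : V) : ((wk G m x y).card : ℝ) = W G m x y := by
  classical
  induction m generalizing y with
  | zero =>
    rw [W_zero]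
    split_ifs with h
    · have : wk G 0 x y = {fun _ => x} := by
        ext p
        rw [mem_wk, mem_singleton]
        constructor
        · rintro ⟨_, h1, _⟩
          funext i
          rw [← h1]
          congr 1
          exact Fin.ext (by omega)
        · rintro rfl
          exact ⟨isWalk_zero _, rfl, h⟩
      rw [this, card_singleton, Nat.cast_one]
    · have : wk G 0 x y = ∅ := by
        ext p
        rw [mem_wk]
        constructor
        · rintro ⟨_, h1, h2⟩
          exact absurd (h1.symm.trans h2) h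
        · intro h1
          exact absurd h1 (notMem_empty _)
      rw [this, card_empty, Nat.cast_zero]
  | succ m ih =>
    rw [W_succ]
    have h1 : (wk G (m + 1) x y).card =
        ∑ z ∈ univ.filter (fun z => G.Adj z y), (wk G m x z).card := by
      rw [← card_sigma]
      refine card_bij' (fun p _ => ⟨p (Fin.last m).castSucc, Fin.init p⟩)
        (fun q _ => (Fin.snoc q.2 y : Fin (m + 1 + 1) → V)) ?_ ?_ ?_ ?_
      · intro p hp
        rw [mem_wk] at hp
        rw [mem_sigma, mem_filter, mem_wk]
        refine ⟨⟨mem_univ _, ?_⟩, ?_, ?_, rfl⟩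
        · have := hp.1 (Fin.last m)
          rw [Fin.succ_last, hp.2.2] at this
          exact this
        · exact fun i => hp.1 i.castSucc
        · exact hp.2.1
      · rintro ⟨z, q⟩ hq
        rw [mem_sigma, mem_filter, mem_wk] at hq
        obtain ⟨⟨_, hz⟩, hq1, hq2, hq3⟩ := hq
        rw [mem_wk]
        refine ⟨hq1.snoc ?_, ?_, ?_⟩
        · rw [hq3]; exact hz
        · have : (0 : Fin (m + 1 + 1)) = Fin.castSucc 0 := rfl
          rw [this, Fin.snoc_castSucc]
          exact hq2
        · rw [Fin.snoc_last]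
      · intro p hp
        rw [mem_wk] at hp
        change (Fin.snoc (Fin.init p) y : Fin (m + 1 + 1) → V) = p
        rw [← hp.2.2]
        exact Fin.snoc_init_self p
      · rintro ⟨z, q⟩ hq
        rw [mem_sigma, mem_filter, mem_wk] at hq
        obtain ⟨⟨_, hz⟩, hq1, hq2, hq3⟩ := hq
        simp only [Fin.snoc_castSucc, Fin.init_snoc]
        dsimp only at hq3
        rw [hq3]
    rw [h1, Nat.cast_sum, sum_filter]
    refine sum_congr rfl fun z _ => ?_
    rw [adj_apply]
    split_ifs with h
    · rw [ih, mul_one]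
    · rw [mul_zero]

/-- the number of walks with two prescribed vertices -/
theorem card_wk_two {m a b : ℕ} (hab : a ≤ b) (hb : b ≤ m) (x y u v : V) :
    (((wk G m x y).filter fun p => p ⟨a, by omega⟩ = u ∧ p ⟨b, by omega⟩ = v).card : ℝ) ≤
      W G a x u * W G (b - a) u v * W G (m - b) v y := by
  classical
  rw [← card_wk, ← card_wk, ← card_wk, ← Nat.cast_mul, ← Nat.cast_mul, ← card_product,
    ← card_product]
  norm_cast
  refine card_le_card_of_injOn (fun p => ((fun i : Fin (a + 1) => p ⟨0 + i, by omega⟩,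
    fun i : Fin (b - a + 1) => p ⟨a + i, by omega⟩),
    fun i : Fin (m - b + 1) => p ⟨b + i, by omega⟩)) ?_ ?_
  · intro p hp
    rw [mem_coe, mem_filter, mem_wk] at hp
    obtain ⟨⟨hp1, hp2, hp3⟩, hp4, hp5⟩ := hp
    rw [mem_coe, mem_product, mem_product, mem_wk, mem_wk, mem_wk]
    refine ⟨⟨⟨hp1.win 0 a (by omega), ?_, ?_⟩, hp1.win a (b - a) (by omega), ?_, ?_⟩,
      hp1.win b (m - b) (by omega), ?_, ?_⟩
    · rw [← hp2]; exact congrArg p (Fin.ext (by simp))
    · rw [← hp4]; exact congrArg p (Fin.ext (by simp))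
    · rw [← hp4]; exact congrArg p (Fin.ext (by simp))
    · rw [← hp5]; exact congrArg p (Fin.ext (by simp; omega))
    · rw [← hp5]; exact congrArg p (Fin.ext (by simp))
    · rw [← hp3]; exact congrArg p (Fin.ext (by simp; omega))
  · intro p _ q _ h
    rw [Prod.mk.injEq, Prod.mk.injEq] at h
    obtain ⟨⟨h1, h2⟩, h3⟩ := h
    funext i
    by_cases hi : (i : ℕ) ≤ a
    · have := congrFun h1 ⟨i, by omega⟩
      simp only [zero_add] at this
      exact this
    · by_cases hi' : (i : ℕ) ≤ b
      · have := congrFun h2 ⟨i - a, by omega⟩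
        have e : (⟨a + (i - a), by omega⟩ : Fin (m + 1)) = i := Fin.ext (by simp; omega)
        simp only [e] at this
        exact this
      · have := congrFun h3 ⟨i - b, by omega⟩
        have e : (⟨b + (i - b), by omega⟩ : Fin (m + 1)) = i := Fin.ext (by simp; omega)
        simp only [e] at this
        exact this

/-- the number of walks with three prescribed vertices -/
theorem card_wk_three {m a b c : ℕ} (hab : a ≤ b) (hbc : b ≤ c) (hc : c ≤ m) (x y u v w : V) :
    (((wk G m x y).filter fun p => p ⟨a, by omega⟩ = u ∧ p ⟨b, by omega⟩ = v ∧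
      p ⟨c, by omega⟩ = w).card : ℝ) ≤
      W G a x u * W G (b - a) u v * W G (c - b) v w * W G (m - c) w y := by
  classical
  rw [← card_wk, ← card_wk, ← card_wk, ← card_wk, ← Nat.cast_mul, ← Nat.cast_mul,
    ← Nat.cast_mul, ← card_product, ← card_product, ← card_product]
  norm_cast
  refine card_le_card_of_injOn (fun p => (((fun i : Fin (a + 1) => p ⟨0 + i, by omega⟩,
    fun i : Fin (b - a + 1) => p ⟨a + i, by omega⟩),
    fun i : Fin (c - b + 1) => p ⟨b + i, by omega⟩),
    fun i : Fin (m - c + 1) => p ⟨c + i, by omega⟩)) ?_ ?_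
  · intro p hp
    rw [mem_coe, mem_filter, mem_wk] at hp
    obtain ⟨⟨hp1, hp2, hp3⟩, hp4, hp5, hp6⟩ := hp
    rw [mem_coe, mem_product, mem_product, mem_product, mem_wk, mem_wk, mem_wk, mem_wk]
    refine ⟨⟨⟨⟨hp1.win 0 a (by omega), ?_, ?_⟩, hp1.win a (b - a) (by omega), ?_, ?_⟩,
      hp1.win b (c - b) (by omega), ?_, ?_⟩, hp1.win c (m - c) (by omega), ?_, ?_⟩
    · rw [← hp2]; exact congrArg p (Fin.ext (by simp))
    · rw [← hp4]; exact congrArg p (Fin.ext (by simp))
    · rw [← hp4]; exact congrArg p (Fin.ext (by simp))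
    · rw [← hp5]; exact congrArg p (Fin.ext (by simp; omega))
    · rw [← hp5]; exact congrArg p (Fin.ext (by simp))
    · rw [← hp6]; exact congrArg p (Fin.ext (by simp; omega))
    · rw [← hp6]; exact congrArg p (Fin.ext (by simp))
    · rw [← hp3]; exact congrArg p (Fin.ext (by simp; omega))
  · intro p _ q _ h
    rw [Prod.mk.injEq, Prod.mk.injEq, Prod.mk.injEq] at h
    obtain ⟨⟨⟨h1, h2⟩, h3⟩, h4⟩ := h
    funext i
    by_cases hi : (i : ℕ) ≤ a
    · have := congrFun h1 ⟨i, by omega⟩
      simp only [zero_add] at this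
      exact this
    · by_cases hi' : (i : ℕ) ≤ b
      · have := congrFun h2 ⟨i - a, by omega⟩
        have e : (⟨a + (i - a), by omega⟩ : Fin (m + 1)) = i := Fin.ext (by simp; omega)
        simp only [e] at this
        exact this
      · by_cases hi'' : (i : ℕ) ≤ c
        · have := congrFun h3 ⟨i - b, by omega⟩
          have e : (⟨b + (i - b), by omega⟩ : Fin (m + 1)) = i := Fin.ext (by simp; omega)
          simp only [e] at this
          exact this
        · have := congrFun h4 ⟨i - c, by omega⟩
          have e : (⟨c + (i - c), by omega⟩ : Fin (m + 1)) = i := Fin.ext (by simp; omega)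
          simp only [e] at this
          exact this

/-- the number of walks with one prescribed vertex -/
theorem card_wk_one {m a : ℕ} (ha : a ≤ m) (x y u : V) :
    (((wk G m x y).filter fun p => p ⟨a, by omega⟩ = u).card : ℝ) ≤
      W G a x u * W G (m - a) u y := by
  have h := card_wk_two (G := G) (le_refl a) ha x y u u
  have e : ((wk G m x y).filter fun p => p ⟨a, by omega⟩ = u ∧ p ⟨a, by omega⟩ = u) =
      (wk G m x y).filter fun p => p ⟨a, by omega⟩ = u := by
    refine filter_congr fun p _ => ?_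
    rw [and_self]
  rw [e, Nat.sub_self, W_zero, if_pos rfl, mul_one] at h
  exact h

end Pool.Agent.Helper55.JS
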