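import Mathlib
import Pool.Agent.Helper41.JS.P5
import Pool.Agent.Helper39.JS.P6
import Pool.Agent.Helper50.JS.P7
import Pool.Agent.Helper96.JS.P8
import Pool.Agent.Helper62.JS.P9
import Pool.Agent.Helper68.JS.P10

/-!
# Project JS: the heavy case for three legs
-/

set_option autoImplicit false

namespace Pool.Agent.Helper55.JS

open Finset

/-- Theorem C: if the number of closed walks of length `2k` is at least `T n d^k`, the graph
contains the blowup. -/
theorem heavy {j1 j2 k t : ℕ} (h1k : j1 < k) (h2k : j2 < k) (hJ : k ≤ j1 + j2) (ht : 1 ≤ t)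
    {K : ℝ} (hK : 1 ≤ K) :
    ∃ T : ℝ, 1 ≤ T ∧ ∀ (V : Type) [Fintype V] [DecidableEq V] (G : SimpleGraph V) (d : ℝ),
      0 < d → Nonempty V → (∀ v, dg G v ≤ K * d) →
      T * Fintype.card V * d ^ k ≤ ∑ v, W G (2 * k) v v →
      (blow 3 t ![j1, j2, k]).IsContained G := by
  classical
  have hk2 : 2 ≤ k := by omega
  have hkR : (2 : ℝ) ≤ k := by exact_mod_cast hk2
  have htR : (1 : ℝ) ≤ t := by exact_mod_cast ht
  have hk0 : (0 : ℝ) < k := by linarith
  have ht0 : (0 : ℝ) < t := by linarith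
  obtain ⟨δ, hδdef⟩ : ∃ δ : ℝ, δ = 1 / (12 * t * k ^ 2) := ⟨_, rfl⟩
  have hδ : 0 < δ := by rw [hδdef]; positivity
  have htkδ : (t : ℝ) * k ^ 2 * δ = 1 / 12 := by rw [hδdef]; field_simp
  obtain ⟨B, hBdef⟩ : ∃ B : ℝ, B = (k : ℝ) / δ ^ 2 + 2 * ((k : ℝ) + 1) ^ 2 := ⟨_, rfl⟩
  have hB : 1 ≤ B := by
    have h1 : 0 ≤ (k : ℝ) / δ ^ 2 := by positivity
    nlinarith
  obtain ⟨ε, hεdef⟩ : ∃ ε : ℝ, ε = 1 / (128 * k ^ 2 * B) := ⟨_, rfl⟩
  have hε : 0 < ε := by rw [hεdef]; positivity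
  have hεB : 128 * (k : ℝ) ^ 2 * B * ε = 1 := by rw [hεdef]; field_simp
  refine ⟨1 + (K / ε) ^ k / ε, ?_, ?_⟩
  · have : 0 ≤ (K / ε) ^ k / ε := by positivity
    linarith
  intro V _ _ G d hd hne hdeg hN
  obtain ⟨N, hNdef⟩ : ∃ N : ℝ, N = ∑ v, W G (2 * k) v v := ⟨_, rfl⟩
  rw [← hNdef] at hN
  have hn : (0 : ℝ) < Fintype.card V := by exact_mod_cast Fintype.card_pos
  have hdk : 0 < d ^ k := by positivity
  have hq : 0 ≤ (K / ε) ^ k / ε := by positivity
  have hNpos : 0 < N := by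
    refine lt_of_lt_of_le ?_ hN
    positivity
  have hN1 : (K * d / ε) ^ k * Fintype.card V ≤ ε * N := by
    have e1 : (K * d / ε) ^ k = (K / ε) ^ k * d ^ k := by
      rw [← mul_pow]; congr 1; ring
    have e2 : (K / ε) ^ k / ε * Fintype.card V * d ^ k ≤ N := by
      refine le_trans ?_ hN
      have : 0 < (Fintype.card V : ℝ) * d ^ k := by positivity
      nlinarith
    calc (K * d / ε) ^ k * Fintype.card V
        = ε * ((K / ε) ^ k / ε * Fintype.card V * d ^ k) := by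
          rw [e1]; field_simp
      _ ≤ ε * N := mul_le_mul_of_nonneg_left e2 hε.le
  have hcl : ∀ m, 1 ≤ m → m < 2 * k →
      ∑ v, W G m v v * W G (2 * k - m) v v ≤ 2 * ε * N := by
    intro m hm hm'
    rw [hNdef]
    exact closed_small hε hdeg (by rw [← hNdef]; exact hN1) m hm hm'
  have hns := nonspread_mass (G := G) (k := k) (by omega) hδ hcl
  rw [← hBdef] at hns
  have hεN : 0 ≤ 2 * ε * N := by positivity
  obtain ⟨w, X1, X2, Qs, hW, hQs, hcard, hgood⟩ := exists_config (G := G) (δ := δ)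
    (N' := B * (2 * ε * N)) h1k h2k hJ (by rw [← hNdef]; exact hNpos)
    (fun m hm hm' => (hcl m hm hm').trans (by nlinarith)) hns (by
      rw [← hNdef]
      have : 16 * (k : ℝ) ^ 2 * (B * (2 * ε * N)) = (128 * (k : ℝ) ^ 2 * B * ε) * N / 4 := by ring
      rw [this, hεB, one_mul])
  have hJk : ((j1 + j2 : ℕ) : ℝ) ≤ 2 * k := by
    have : j1 + j2 ≤ 2 * k := by omega
    exact_mod_cast this
  obtain ⟨Q, hQ, hQd⟩ := choose_Q (t := t) hW hcard hδ.le (by
      have h1 : ((j1 + j2 : ℕ) : ℝ) ^ 2 ≤ (2 * k) ^ 2 := by gcongr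
      calc (t : ℝ) * ((j1 + j2 : ℕ) : ℝ) ^ 2 * δ ≤ t * (2 * k) ^ 2 * δ := by gcongr
        _ = 4 * (t * k ^ 2 * δ) := by ring
        _ ≤ 1 / 2 := by rw [htkδ]; norm_num)
    (fun i hi hi' z => pos_bound hk2 hJ hQs (fun Q hQ => (hgood Q hQ).2.2.1) hδ.le i hi hi' z)
  let F : Finset V := univ.biUnion fun a : Fin t => univ.image (Q a)
  have hFmem : ∀ a i, Q a i ∈ F := fun a i =>
    mem_biUnion.mpr ⟨a, mem_univ _, mem_image_of_mem _ (mem_univ _)⟩
  have hF : (F.card : ℝ) ≤ 2 * t * k := by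
    have h1 : F.card ≤ ∑ a : Fin t, (univ.image (Q a)).card := card_biUnion_le
    have h2 : ∑ a : Fin t, (univ.image (Q a)).card ≤ ∑ _a : Fin t, (j1 + j2 + 1) :=
      sum_le_sum fun a _ => card_image_le.trans (by simp)
    have h3 : F.card ≤ t * (j1 + j2 + 1) := by
      refine h1.trans (h2.trans ?_)
      simp
    have h4 : t * (j1 + j2 + 1) ≤ 2 * t * k := by
      have : j1 + j2 + 1 ≤ 2 * k := by omega
      calc t * (j1 + j2 + 1) ≤ t * (2 * k) := Nat.mul_le_mul_left _ this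
        _ = 2 * t * k := by ring
    exact_mod_cast h3.trans h4
  obtain ⟨R, hR, hRd⟩ := choose_R (k := k) (δ := δ) (w := w)
    (fun a => Q a ⟨j1, by omega⟩) (fun a => (hgood _ (hQ a)).2.2.2) F hδ.le (by
      calc (k : ℝ) * ((F.card : ℝ) + t * k) * δ ≤ k * (2 * t * k + t * k) * δ := by gcongr
        _ = 3 * (t * k ^ 2 * δ) := by ring
        _ ≤ 1 / 4 := by rw [htkδ]; norm_num)
  refine heavy_assemble ht (by omega) (by omega) (by omega) Q (fun a => hQs (hQ a))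
    (fun a => (hgood _ (hQ a)).1) (fun a => (hgood _ (hQ a)).2.1) hQd R (fun a => (hR a).1)
    (fun a => (hR a).2.1) (fun a b i i' hi hi' h => ?_) hRd
  exact (hR a).2.2 i hi hi' (h ▸ hFmem b i')

end Pool.Agent.Helper55.JS
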