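import Mathlib
import Pool.Agent.Helper74.JS.P2
import Pool.Agent.Helper97.JS.P4
import Pool.Agent.Helper41.JS.P5
import Pool.Agent.Helper54.JS.P11
import Pool.Agent.Helper81.JS.P12
import Pool.Agent.Helper51.JS.P13
import Pool.Agent.Helper65.JS.P14
import Pool.Agent.Helper82.JS.P15
import Pool.Agent.Helper93.JS.P16

/-!
# Project JS: the light theorem for all spiders
-/

set_option autoImplicit false

namespace Pool.Agent.Helper55.JS

open Finset

/-- the growth lemma for the numbers `√(Qc i) / D ^ i` -/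
theorem growth_leg {V : Type} [Fintype V] [DecidableEq V] {G : SimpleGraph V} {s : ℕ}
    {j : Fin s → ℕ} {k : ℕ} (hjk : ∀ c, j c ≤ k) (c : Fin s) {T D : ℝ} (hT : 1 ≤ T) (hD : 0 < D)
    (hW : ∀ m ≤ 2 * k, ∀ x y, W G m x y ≤ T * D ^ m) {i : ℕ} (hi1 : 1 ≤ i) (hi : i < j c) :
    (√(Qc G j c i) / D ^ i) ^ 2 ≤ (√(Qc G j c (i - 1)) / D ^ (i - 1)) *
      (√(Qc G j c (i + 1)) / D ^ (i + 1) +
        ((((∑ b, j b : ℕ) : ℝ) + 1) * T ^ (s + 1)) *
          ∑ i' ∈ range i, √(Qc G j c i') / D ^ i' +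
        ((((∑ b, j b : ℕ) : ℝ) + 1) * T ^ (s + 1)) *
          (√(Fintype.card V : ℝ) * D ^ ((∑ b, j b) - j c))) := by
  obtain ⟨e, he⟩ : ∃ e : ℕ, e = ∑ b, j b := ⟨_, rfl⟩
  obtain ⟨C, hC⟩ : ∃ C : ℝ, C = ((e : ℝ) + 1) * T ^ (s + 1) := ⟨_, rfl⟩
  have hT0 : 0 ≤ T := by linarith
  have hTs : T ≤ T ^ (s + 1) := le_self_pow₀ hT (by omega)
  have hTs1 : 1 ≤ T ^ (s + 1) := one_le_pow₀ hT
  have he0 : (0 : ℝ) ≤ e := Nat.cast_nonneg _
  have hTC : T ≤ C := by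
    rw [hC]
    nlinarith
  have hjck := hjk c
  have hQ0 : ∀ i, 0 ≤ Qc G j c i := fun i =>
    sum_nonneg fun x _ => sum_nonneg fun v _ => sq_nonneg _
  have h1 := growth (G := G) (oth G j c) (fun o => o.1) oX oS hT0 hD hi1
    (fun m _ hm y => hW m (by omega) y y)
  have h2 := beta_bound (G := G) hjk c hT hD hW hi
  have h3 : √(∑ x, ∑ y, βv G (oth G j c) (fun o => o.1) oX oS i x y ^ 2) ≤
      C * (√(Fintype.card V : ℝ) * D ^ ((∑ b, j b) - j c)) * D ^ (i + 1) := by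
    have hC0 : 0 ≤ C := by linarith
    refine Real.sqrt_le_iff.mpr ⟨by positivity, h2.trans ?_⟩
    rw [← he, hC]
    have e1 : D ^ (2 * (e - j c + i + 1)) = (D ^ (e - j c) * D ^ (i + 1)) ^ 2 := by
      rw [← pow_add, ← pow_mul]; congr 1; ring
    have e2 : (√(Fintype.card V : ℝ)) ^ 2 = Fintype.card V := Real.sq_sqrt (Nat.cast_nonneg _)
    have e3 : (((e : ℝ) + 1) * T ^ (s + 1) * (√(Fintype.card V : ℝ) * D ^ (e - j c)) *
        D ^ (i + 1)) ^ 2 = ((e : ℝ) + 1) ^ 2 * (T ^ (s + 1)) ^ 2 * Fintype.card V *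
          (D ^ (e - j c) * D ^ (i + 1)) ^ 2 := by
      rw [mul_pow, mul_pow, mul_pow, mul_pow, e2]; ring
    rw [e1, e3]
    have e4 : (e : ℝ) ^ 2 * T ^ (s + 1) ≤ ((e : ℝ) + 1) ^ 2 * (T ^ (s + 1)) ^ 2 := by
      have : T ^ (s + 1) ≤ (T ^ (s + 1)) ^ 2 := le_self_pow₀ hTs1 (by norm_num)
      have : (e : ℝ) ^ 2 ≤ ((e : ℝ) + 1) ^ 2 := by nlinarith
      gcongr
    have e5 : 0 ≤ (Fintype.card V : ℝ) * (D ^ (e - j c) * D ^ (i + 1)) ^ 2 := by positivity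
    nlinarith
  -- rewrite everything in terms of the numbers `√(Qc i) / D ^ i`
  set α : ℕ → ℝ := fun i => √(Qc G j c i) / D ^ i with hα
  have hαi : ∀ i, √(Qc G j c i) = α i * D ^ i := fun i => by
    rw [hα]; field_simp
  have hα0 : ∀ i, 0 ≤ α i := fun i => by rw [hα]; positivity
  have h4 : Qc G j c i = (α i) ^ 2 * D ^ (2 * i) := by
    rw [← Real.sq_sqrt (hQ0 i), hαi i]; ring
  have h5 : (α i) ^ 2 * D ^ (2 * i) ≤ α (i - 1) * D ^ (i - 1) * (α (i + 1) * D ^ (i + 1) +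
      ∑ i' ∈ range i, C * α i' * D ^ (i + 1) +
      C * (√(Fintype.card V : ℝ) * D ^ ((∑ b, j b) - j c)) * D ^ (i + 1)) := by
    rw [← h4, ← hαi, ← hαi]
    refine h1.trans ?_
    refine mul_le_mul_of_nonneg_left ?_ (Real.sqrt_nonneg _)
    refine add_le_add (add_le_add le_rfl ?_) h3
    refine sum_le_sum fun i' hi' => ?_
    rw [mem_range] at hi'
    change T * D ^ (i + 1 - i') * √(Qc G j c i') ≤ _
    rw [hαi i']
    have e1 : D ^ (i + 1) = D ^ (i + 1 - i') * D ^ i' := by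
      rw [← pow_add]; congr 1; omega
    rw [e1]
    have := hα0 i'
    calc T * D ^ (i + 1 - i') * (α i' * D ^ i') = T * (α i' * (D ^ (i + 1 - i') * D ^ i')) := by
          ring
      _ ≤ C * (α i' * (D ^ (i + 1 - i') * D ^ i')) := by gcongr
      _ = C * α i' * (D ^ (i + 1 - i') * D ^ i') := by ring
  have h6 : D ^ (2 * i) = D ^ (i - 1) * D ^ (i + 1) := by
    rw [← pow_add]; congr 1; omega
  have h7 : (α i) ^ 2 * D ^ (2 * i) ≤ (α (i - 1) * (α (i + 1) +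
      C * ∑ i' ∈ range i, α i' +
      C * (√(Fintype.card V : ℝ) * D ^ ((∑ b, j b) - j c)))) * D ^ (2 * i) := by
    refine h5.trans (le_of_eq ?_)
    rw [h6, mul_sum, ← sum_mul]
    ring
  have h8 := le_of_mul_le_mul_right h7 (by positivity : 0 < D ^ (2 * i))
  rw [← he, ← hC]
  rw [← he] at h8
  exact h8

/-- the light theorem under a pointwise assumption -/
theorem light_pointwise {s t : ℕ} (hs : 1 ≤ s) (ht : 1 ≤ t) {j : Fin s → ℕ} (hj : ∀ c, 1 ≤ j c)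
    {k : ℕ} (hjk : ∀ c, j c ≤ k) {K T : ℝ} (hK : 1 ≤ K) (hT : 1 ≤ T) :
    ∃ M0 : ℝ, ∀ (V : Type) [Fintype V] [DecidableEq V] (G : SimpleGraph V) (D : ℝ), 0 < D →
      Nonempty V → (∀ v, D ^ 2 ≤ dg G v) → (∀ v, dg G v ≤ K * D ^ 2) →
      (∀ v, W G (2 * k) v v ≤ T * D ^ (2 * k)) → M0 ≤ D →
      M0 * (Fintype.card V : ℝ) ^ (s - 1) ≤ D ^ (2 * ∑ c, j c) →
      (blow s t j).IsContained G := by
  classical
  obtain ⟨e, he⟩ : ∃ e : ℕ, e = ∑ b, j b := ⟨_, rfl⟩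
  obtain ⟨C, hC⟩ : ∃ C : ℝ, C = ((e : ℝ) + 1) * T ^ (s + 1) := ⟨_, rfl⟩
  have hT0 : 0 ≤ T := by linarith
  have he0 : (0 : ℝ) ≤ e := Nat.cast_nonneg _
  have hTs1 : 1 ≤ T ^ (s + 1) := one_le_pow₀ hT
  have hC1 : 1 ≤ C := by rw [hC]; nlinarith
  obtain ⟨C1, hC1def⟩ : ∃ C1 : ℝ, C1 = (t : ℝ) * (e : ℝ) ^ 2 := ⟨_, rfl⟩
  have hC10 : 0 ≤ C1 := by rw [hC1def]; positivity
  obtain ⟨ρ, hρdef⟩ : ∃ ρ : ℝ, ρ = √(C1 * e * T + 1) := ⟨_, rfl⟩
  have hρarg : 0 ≤ C1 * e * T := by positivity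
  have hρ2 : ρ ^ 2 = C1 * e * T + 1 := by rw [hρdef]; exact Real.sq_sqrt (by linarith)
  have hρ1 : 1 ≤ ρ := by
    rw [hρdef]
    refine Real.one_le_sqrt.mpr (by linarith)
  choose M1 hM1 hgr using fun c : Fin s => growth_numbers (j c) C ρ hC1 hρ1
  obtain ⟨D0, hD0⟩ := card_copies j hjk hK hT
  refine ⟨max (max D0 1) (4 * ∑ c, M1 c ^ 2), ?_⟩
  intro V _ _ G D hD hne hdeg hdeg' hWk hMD hMn
  have hD0D : D0 ≤ D := ((le_max_left _ _).trans (le_max_left _ _)).trans hMD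
  have hD1 : 1 ≤ D := ((le_max_right _ _).trans (le_max_left _ _)).trans hMD
  have hn : (0 : ℝ) < Fintype.card V := by exact_mod_cast Fintype.card_pos
  obtain ⟨n, hndef⟩ : ∃ n : ℝ, n = Fintype.card V := ⟨_, rfl⟩
  rw [← hndef] at hn hMn
  by_contra hcon
  have hfree : (blow s t j).Free G := hcon
  have hW : ∀ m ≤ 2 * k, ∀ x y, W G m x y ≤ T * D ^ m := fun m hm x y =>
    W_le_of_light hT hD hWk hm x y
  have hcard := hD0 V G D hD0D hD1 hdeg hdeg' hW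
  rw [← hndef, ← he] at hcard
  obtain ⟨Q, hQdef⟩ : ∃ Q : ℝ, Q = ∑ X, IX G j X ^ 2 := ⟨_, rfl⟩
  have hcs := card_sq_le (G := G) (j := j)
  rw [← hQdef, ← hndef] at hcs
  have hM4 : 4 * ∑ c, M1 c ^ 2 ≤ max (max D0 1) (4 * ∑ c, M1 c ^ 2) := le_max_right _ _
  rw [← he] at hMn
  have hD2e : 0 < D ^ (2 * e) := by positivity
  -- lower bound for `Q`
  have hQlow : n * D ^ (2 * e) * (∑ c, M1 c ^ 2) ≤ Q := by
    have h1 : (n * D ^ (2 * e) / 2) ^ 2 ≤ n ^ s * Q :=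
      (by gcongr : (n * D ^ (2 * e) / 2) ^ 2 ≤ ((cps G j).card : ℝ) ^ 2).trans hcs
    have h2 : 4 * (∑ c, M1 c ^ 2) * n ^ (s - 1) ≤ D ^ (2 * e) :=
      (mul_le_mul_of_nonneg_right hM4 (by positivity)).trans hMn
    have h3 : n ^ s * (n * D ^ (2 * e) * (∑ c, M1 c ^ 2)) ≤ n ^ s * Q := by
      refine le_trans ?_ h1
      have h4 : n ^ s = n ^ (s - 1) * n := by
        rw [← pow_succ]; congr 1; omega
      calc n ^ s * (n * D ^ (2 * e) * (∑ c, M1 c ^ 2))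
          = (n ^ 2 * D ^ (2 * e) / 4) * (4 * (∑ c, M1 c ^ 2) * n ^ (s - 1)) := by
            rw [h4]; ring
        _ ≤ (n ^ 2 * D ^ (2 * e) / 4) * D ^ (2 * e) := by gcongr
        _ = (n * D ^ (2 * e) / 2) ^ 2 := by ring
    exact le_of_mul_le_mul_left h3 (by positivity)
  have hM1pos : ∀ c, 0 < M1 c ^ 2 := fun c => by have := hM1 c; positivity
  have hMsum : ∀ c, M1 c ^ 2 ≤ ∑ c, M1 c ^ 2 := fun c =>
    single_le_sum (f := fun c => M1 c ^ 2) (fun c _ => (hM1pos c).le) (mem_univ c)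
  have hQpos : 0 < Q := by
    have h1 := hMsum ⟨0, hs⟩
    have h2 := hM1pos ⟨0, hs⟩
    have h3 : 0 < n * D ^ (2 * e) * (∑ c, M1 c ^ 2) := by
      have : 0 < ∑ c, M1 c ^ 2 := by linarith
      positivity
    linarith
  have hQ0 : ∀ c i, 0 ≤ Qc G j c i := fun c i =>
    sum_nonneg fun x _ => sum_nonneg fun v _ => sq_nonneg _
  -- growth on every leg
  have hkey : ∀ c, ∀ i, i < j c → ρ ^ 2 * (D ^ (2 * (j c - i)) * Qc G j c i) ≤ Q := by
    intro c i hi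
    have hje : j c ≤ e := by
      rw [he]; exact single_le_sum (f := j) (fun c _ => Nat.zero_le _) (mem_univ c)
    have hβ : 0 < √n * D ^ (e - j c) := by positivity
    have hlast : Qc G j c (j c) = Q := by rw [hQdef]; exact Qc_last hj c
    have h1 := hgr c (fun i => √(Qc G j c i) / D ^ i) (√n * D ^ (e - j c)) hβ
      (fun i => by positivity) ?_ ?_ ?_ i hi
    · -- conclusion
      rw [hlast] at h1
      have h2 : (ρ * (√(Qc G j c i) / D ^ i)) ^ 2 ≤ (√Q / D ^ (j c)) ^ 2 := by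
        have : 0 ≤ ρ * (√(Qc G j c i) / D ^ i) := by positivity
        gcongr
      rw [mul_pow, div_pow, div_pow, Real.sq_sqrt (hQ0 c i), Real.sq_sqrt hQpos.le,
        ← mul_div_assoc, div_le_div_iff₀ (by positivity) (by positivity)] at h2
      have e1 : (D ^ (j c)) ^ 2 = D ^ (2 * (j c - i)) * (D ^ i) ^ 2 := by
        rw [← pow_mul, ← pow_mul, ← pow_add]; congr 1; omega
      rw [e1] at h2
      have h3 : ρ ^ 2 * (D ^ (2 * (j c - i)) * Qc G j c i) * (D ^ i) ^ 2 ≤ Q * (D ^ i) ^ 2 := by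
        calc ρ ^ 2 * (D ^ (2 * (j c - i)) * Qc G j c i) * (D ^ i) ^ 2
            = ρ ^ 2 * Qc G j c i * (D ^ (2 * (j c - i)) * (D ^ i) ^ 2) := by ring
          _ ≤ _ := h2
      exact le_of_mul_le_mul_right h3 (by positivity)
    · -- the first term
      rw [pow_zero, div_one]
      refine Real.sqrt_le_iff.mpr ⟨by positivity, ?_⟩
      have h2 := Qc_zero (G := G) (j := j) hT hD c (fun b y => hW _ (by have := hjk b; omega) y y)
      rw [← he, ← hndef] at h2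
      refine h2.trans ?_
      rw [hC]
      have e1 : D ^ (2 * (e - j c)) = (D ^ (e - j c)) ^ 2 := by
        rw [← pow_mul]; congr 1; ring
      have e2 : √n ^ 2 = n := Real.sq_sqrt hn.le
      have e3 : (((e : ℝ) + 1) * T ^ (s + 1) * (√n * D ^ (e - j c))) ^ 2 =
          (((e : ℝ) + 1) ^ 2 * (T ^ (s + 1)) ^ 2) * n * (D ^ (e - j c)) ^ 2 := by
        rw [mul_pow, mul_pow, mul_pow, e2]; ring
      rw [e1, e3]
      have e4 : T ^ s ≤ ((e : ℝ) + 1) ^ 2 * (T ^ (s + 1)) ^ 2 := by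
        have h3 : T ^ s ≤ T ^ (s + 1) := pow_le_pow_right₀ hT (by omega)
        have h4 : T ^ (s + 1) ≤ (T ^ (s + 1)) ^ 2 := le_self_pow₀ hTs1 (by norm_num)
        have h5 : (1 : ℝ) ≤ ((e : ℝ) + 1) ^ 2 := by nlinarith
        have h6 : 0 ≤ (T ^ (s + 1)) ^ 2 := by positivity
        nlinarith
      have e5 : 0 ≤ n * (D ^ (e - j c)) ^ 2 := by positivity
      nlinarith
    · -- the last term
      rw [hlast, le_div_iff₀ (by positivity)]
      refine Real.le_sqrt_of_sq_le ?_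
      have e1 : D ^ (2 * e) = (D ^ (e - j c) * D ^ (j c)) ^ 2 := by
        rw [← pow_add, ← pow_mul]; congr 1; omega
      have e2 : √n ^ 2 = n := Real.sq_sqrt hn.le
      calc (M1 c * (√n * D ^ (e - j c)) * D ^ (j c)) ^ 2
          = n * D ^ (2 * e) * M1 c ^ 2 := by
            rw [e1]
            calc (M1 c * (√n * D ^ (e - j c)) * D ^ (j c)) ^ 2
                = √n ^ 2 * (D ^ (e - j c) * D ^ (j c)) ^ 2 * M1 c ^ 2 := by ring
              _ = _ := by rw [e2]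
        _ ≤ n * D ^ (2 * e) * (∑ c, M1 c ^ 2) := by
            have := hMsum c
            gcongr
        _ ≤ Q := hQlow
    · intro i hi1 hi2
      have h2 := growth_leg (G := G) hjk c hT hD hW hi1 hi2
      rw [← he, ← hC, ← hndef] at h2
      exact h2
  -- the hitting inequality
  have h1 : Q ≤ C1 * ∑ c, ∑ i : Fin (j c), ∑ X, ∑ z, IXz G j X c i z ^ 2 := by
    have h2 : Q ≤ ∑ X, C1 * ∑ c, ∑ i : Fin (j c), ∑ z, IXz G j X c i z ^ 2 := by
      rw [hQdef]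
      refine sum_le_sum fun X _ => ?_
      have h3 := hitting hs ht hj hfree X
      rw [← he, ← hC1def] at h3
      exact h3
    refine h2.trans (le_of_eq ?_)
    rw [← mul_sum, sum_comm]
    congr 1
    refine sum_congr rfl fun c _ => ?_
    rw [sum_comm]
  have h2 : ∀ c, ∀ i : Fin (j c), ∑ X, ∑ z, IXz G j X c i z ^ 2 ≤ T * (Q / ρ ^ 2) := by
    intro c i
    have h3 := D_inner (G := G) (j := j) (T := T) (D := D) c i
      (fun y => hW _ (by have := hjk c; omega) y y)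
    refine h3.trans ?_
    rw [mul_assoc]
    refine mul_le_mul_of_nonneg_left ?_ hT0
    rw [le_div_iff₀ (by positivity), mul_comm]
    exact hkey c i i.2
  have h3 : ∑ c, ∑ i : Fin (j c), ∑ X, ∑ z, IXz G j X c i z ^ 2 ≤ e * (T * (Q / ρ ^ 2)) := by
    calc ∑ c, ∑ i : Fin (j c), ∑ X, ∑ z, IXz G j X c i z ^ 2
        ≤ ∑ c, ∑ _i : Fin (j c), T * (Q / ρ ^ 2) :=
          sum_le_sum fun c _ => sum_le_sum fun i _ => h2 c i
      _ = e * (T * (Q / ρ ^ 2)) := by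
          simp only [sum_const, card_univ, Fintype.card_fin, nsmul_eq_mul]
          rw [← sum_mul, he]
          push_cast
          rfl
  have h4 : Q ≤ C1 * (e * (T * (Q / ρ ^ 2))) := h1.trans (mul_le_mul_of_nonneg_left h3 hC10)
  have h5 : C1 * (e * (T * (Q / ρ ^ 2))) < Q := by
    rw [hρ2]
    have : C1 * (e * (T * (Q / (C1 * e * T + 1)))) = Q * ((C1 * e * T) / (C1 * e * T + 1)) := by
      ring
    rw [this]
    have h6 : (C1 * e * T) / (C1 * e * T + 1) < 1 := by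
      rw [div_lt_one (by linarith)]
      linarith
    nlinarith
  linarith

/-- Theorem B: the light theorem for all spiders. -/
theorem light {s t : ℕ} (hs : 1 ≤ s) (ht : 1 ≤ t) {j : Fin s → ℕ} (hj : ∀ c, 1 ≤ j c)
    {k : ℕ} (hjk : ∀ c, j c ≤ k) {K T : ℝ} (hK : 1 ≤ K) (hT : 0 < T) :
    ∃ M0 : ℝ, ∀ (V : Type) [Fintype V] [DecidableEq V] (G : SimpleGraph V) (d : ℝ), 0 < d →
      Nonempty V → (∀ v, d ≤ dg G v) → (∀ v, dg G v ≤ K * d) →
      ∑ v, W G (2 * k) v v ≤ T * Fintype.card V * d ^ k → M0 ≤ d →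
      M0 * (Fintype.card V : ℝ) ^ (s - 1) ≤ d ^ (∑ c, j c) →
      (blow s t j).IsContained G := by
  obtain ⟨e, he⟩ : ∃ e : ℕ, e = ∑ b, j b := ⟨_, rfl⟩
  obtain ⟨T', hT'⟩ : ∃ T' : ℝ, T' = max 1 (4 * K * T * 4 ^ k) := ⟨_, rfl⟩
  obtain ⟨M0, hM0⟩ := light_pointwise hs ht hj hjk (K := 4 * K) (T := T') (by linarith)
    (by rw [hT']; exact le_max_left _ _)
  refine ⟨max (4 * (|M0| ^ 2)) (|M0| * 4 ^ e), ?_⟩
  intro V _ _ G d hd hne hdeg hdeg' hN hMd hMn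
  obtain ⟨V', _, _, G', hne', hcont, hdeg1, hdeg2, hW⟩ := exists_light_subgraph (K := K) hd hK hT
    hdeg hdeg' hN
  refine SimpleGraph.IsContained.trans ?_ hcont
  have hD2 : √(d / 4) ^ 2 = d / 4 := Real.sq_sqrt (by positivity)
  have hD0 : 0 < √(d / 4) := by positivity
  have hn : (Fintype.card V' : ℝ) ≤ Fintype.card V := by
    obtain ⟨f⟩ := hcont
    exact_mod_cast Fintype.card_le_of_injective _ f.injective
  have hM0abs : M0 ≤ |M0| := le_abs_self _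
  refine hM0 V' G' √(d / 4) hD0 hne' (fun v => ?_) (fun v => ?_) (fun v => ?_) ?_ ?_
  · rw [hD2]; exact hdeg1 v
  · rw [hD2]
    refine (hdeg2 v).trans (le_of_eq ?_)
    ring
  · refine (hW v).trans ?_
    rw [pow_mul, hD2, hT']
    have h1 : (4 * K * T * 4 ^ k) * (d / 4) ^ k = 4 * K * T * d ^ k := by
      rw [div_pow]; field_simp
    rw [← h1]
    have : 0 ≤ (d / 4) ^ k := by positivity
    exact mul_le_mul_of_nonneg_right (le_max_right _ _) this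
  · refine hM0abs.trans (Real.le_sqrt_of_sq_le ?_)
    have := (le_max_left _ _).trans hMd
    linarith
  · rw [pow_mul, hD2, ← he, div_pow, le_div_iff₀ (by positivity)]
    have h1 := (mul_le_mul_of_nonneg_right (le_max_right (4 * (|M0| ^ 2)) (|M0| * 4 ^ e))
      (by positivity : (0 : ℝ) ≤ (Fintype.card V : ℝ) ^ (s - 1))).trans hMn
    rw [← he] at h1
    refine le_trans ?_ h1
    have h2 : (Fintype.card V' : ℝ) ^ (s - 1) ≤ (Fintype.card V : ℝ) ^ (s - 1) := by gcongr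
    calc M0 * (Fintype.card V' : ℝ) ^ (s - 1) * 4 ^ e
        ≤ |M0| * (Fintype.card V : ℝ) ^ (s - 1) * 4 ^ e := by gcongr
      _ = |M0| * 4 ^ e * (Fintype.card V : ℝ) ^ (s - 1) := by ring

end Pool.Agent.Helper55.JS
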