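import Mathlib
import Pool.Agent.Helper55.JS.Heavy
import Pool.Agent.Helper55.JS.Light
import Pool.Agent.Helper55.JS.Reg

/-!
# Project JS: the theorem for spiders with three legs
-/

set_option autoImplicit false

namespace Pool.Agent.Helper55.JS

open Finset

lemma dg_eq_degree {V : Type} [Fintype V] (G : SimpleGraph V) [DecidableRel G.Adj] (v : V) :
    dg G v = G.degree v := by
  classical
  unfold dg
  simp only [adj_apply]
  rw [sum_boole]
  congr 1
  rw [← SimpleGraph.card_neighborFinset_eq_degree]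
  congr 1
  ext y
  simp

/-- Janzer's conjecture for all spiders with three legs, two of which are shorter than the
third. -/
theorem three_legs {j1 j2 k t : ℕ} (h1k : j1 < k) (h2k : j2 < k) (hJ : k < j1 + j2)
    (ht : 1 ≤ t) : ∃ C : ℝ, ∀ n : ℕ,
      (SimpleGraph.extremalNumber n (blow 3 t ![j1, j2, k]) : ℝ) ≤
        C * (n : ℝ) ^ (1 + 2 / ((j1 + j2 + k : ℕ) : ℝ)) := by
  by_contra hcon
  have he0 : (0 : ℝ) < ((j1 + j2 + k : ℕ) : ℝ) := by
    have : 0 < j1 + j2 + k := by omega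
    exact_mod_cast this
  have hy : 0 < 2 / ((j1 + j2 + k : ℕ) : ℝ) := by positivity
  have hy1 : 2 / ((j1 + j2 + k : ℕ) : ℝ) ≤ 1 := by
    rw [div_le_one he0]
    have : 2 ≤ j1 + j2 + k := by omega
    exact_mod_cast this
  obtain ⟨K, hK, hreg⟩ := RG.regularize _ hy hy1
  have hKR : (1 : ℝ) ≤ K := by exact_mod_cast hK
  obtain ⟨T, hT, hheavy⟩ := heavy (t := t) h1k h2k hJ.le ht hKR
  have hj : ∀ c, 1 ≤ (![j1, j2, k] : Fin 3 → ℕ) c := by
    intro c
    fin_cases c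
    · change 1 ≤ j1; omega
    · change 1 ≤ j2; omega
    · change 1 ≤ k; omega
  have hjk : ∀ c, (![j1, j2, k] : Fin 3 → ℕ) c ≤ k := by
    intro c
    fin_cases c
    · change j1 ≤ k; omega
    · change j2 ≤ k; omega
    · change k ≤ k; omega
  have hsum : ∑ c, (![j1, j2, k] : Fin 3 → ℕ) c = j1 + j2 + k := by
    rw [Fin.sum_univ_three]
    rfl
  obtain ⟨M0, hlight⟩ := light (s := 3) (t := t) (by norm_num) ht hj hjk hKR
    (by linarith : (0 : ℝ) < T)
  obtain ⟨V, _, _, G, _, c, d, hne, hfree, hc, hdeg, hd⟩ := hreg _ (blow 3 t ![j1, j2, k]) hcon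
    (max 1 M0)
  have hn1 : (1 : ℝ) ≤ Fintype.card V := by exact_mod_cast Fintype.card_pos
  have hB1 : 1 ≤ max 1 M0 := le_max_left _ _
  have hny : (1 : ℝ) ≤ (Fintype.card V : ℝ) ^ (2 / ((j1 + j2 + k : ℕ) : ℝ)) :=
    Real.one_le_rpow hn1 hy.le
  have hdB : max 1 M0 ≤ (d : ℝ) := by
    refine le_trans ?_ hd
    nlinarith
  have hd1 : (1 : ℝ) ≤ d := hB1.trans hdB
  have hd0 : (0 : ℝ) < d := by linarith
  have hdeg1 : ∀ v, (d : ℝ) ≤ dg G v := fun v => by
    rw [dg_eq_degree]; exact_mod_cast (hdeg v).1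
  have hdeg2 : ∀ v, dg G v ≤ K * (d : ℝ) := fun v => by
    rw [dg_eq_degree]; exact_mod_cast (hdeg v).2
  apply hfree
  rcases le_total (T * Fintype.card V * (d : ℝ) ^ k) (∑ v, W G (2 * k) v v) with h | h
  · exact hheavy V G d hd0 hne hdeg2 h
  · refine hlight V G d hd0 hne hdeg1 hdeg2 h ((le_max_right _ _).trans hdB) ?_
    rw [hsum]
    have h1 : (max 1 M0 * (Fintype.card V : ℝ) ^ (2 / ((j1 + j2 + k : ℕ) : ℝ))) ^ (j1 + j2 + k) ≤
        (d : ℝ) ^ (j1 + j2 + k) := by gcongr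
    refine le_trans ?_ h1
    rw [mul_pow]
    have h2 : ((Fintype.card V : ℝ) ^ (2 / ((j1 + j2 + k : ℕ) : ℝ))) ^ (j1 + j2 + k) =
        (Fintype.card V : ℝ) ^ (3 - 1) := by
      rw [← Real.rpow_natCast, ← Real.rpow_mul (by positivity), div_mul_cancel₀ _ he0.ne']
      norm_num
    rw [h2]
    have h3 : M0 ≤ max 1 M0 ^ (j1 + j2 + k) :=
      (le_max_right _ _).trans (le_self_pow₀ hB1 (by omega))
    gcongr

end Pool.Agent.Helper55.JS
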